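import Mathlib

/-!
# Abelian varieties whose tensor category contains the adjoint representation of a newform

`B` is an abelian variety over a number field `K` and `f` a Hilbert newform of parallel weight 2 over a
totally real subfield, without complex multiplication. `K` is replaced by a finite extension such that
the algebraic monodromy groups are connected.
-/

set_option autoImplicit false

namespace Run7.h615.ES

/-- The field of algebraic numbers. -/
abbrev Qb : Type := AlgebraicClosure ℚ

/-- The data of an abelian variety `B` over a number field and of a newform `f`. If for a given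
`p : Lam` the adjoint representation of `f` occurs in the tensor category of `V_p(B)`, the algebraic
monodromy group of `V_p(B) ⊕ ρ_(f,p)` has exactly one simple factor `S = SL₂` which acts nontrivially on
`ρ_(f,p)`; the irreducible constituents of `V_p(B)` on which `S` acts nontrivially have the form
`Sym^k(ρ_(f,p)) ⊗ τ`. -/
structure Pair where
  /-- the embeddings `p` of `ℚ̄` into `ℚ̄_ℓ`, for all primes `ℓ` -/
  Lam : Type
  ell : Lam → ℕ
  /-- the valuation on `ℚ̄` given by `p` -/
  val : Lam → Qbˣ → ℚ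
  /-- the set, of density one, of all places of `K` at which `B` and `f` have good reduction and whose
  Frobenius torus is a maximal torus of the monodromy group of `V_p(B) ⊕ ρ_(f,p)` for all `p` -/
  Pl : Type
  /-- residue characteristic, and number of elements of the residue field -/
  res : Pl → ℕ
  q : Pl → ℝ
  /-- the eigenvalues of the Frobenius at `v` on `V(B)` -/
  Ev : Pl → Set Qbˣ
  /-- the eigenvalues of the Frobenius at `v` on `ρ_f` -/
  a : Pl → Qbˣ
  b : Pl → Qbˣ
  /-- the ranks of the monodromy groups of `V_p(B)` and of `V_p(B) ⊕ ρ_(f,p)` -/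
  rk : Lam → ℕ
  rk' : Lam → ℕ
  /-- over some number field the adjoint representation of `ρ_(f,p)` occurs in a tensor construction of
  `V_p(B)` -/
  AbType : Lam → Prop
  /-- the irreducible constituents of `V_p(B)` on which `S` acts nontrivially -/
  I : Lam → Type
  /-- the constituent is `Sym^k(ρ_(f,p)) ⊗ τ` -/
  k : (p : Lam) → I p → ℕ
  /-- the embeddings of `K` into `ℚ̄_ℓ`, and the Hodge-Tate weights of `τ` -/
  Emb : Lam → Type
  ht : (p : Lam) → I p → Emb p → Set ℤ
  /-- the eigenvalues of the Frobenius at `v` on `τ` (of the crystalline Frobenius if `v` lies over `ℓ`) -/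
  Et : (p : Lam) → I p → Pl → Set Qbˣ
  /-- the coroot of `S`, as a homomorphism on the group generated by the eigenvalues (the character
  group of the Frobenius torus), extended to `ℚ̄ˣ` -/
  coroot : Lam → Pl → Qbˣ → ℚ
  /-- `τ` is trivial on an open subgroup -/
  Triv : (p : Lam) → I p → Prop

/-- The known facts on the data. -/
structure Pair.Known (D : Pair) : Prop where
  finite : ∀ v, (D.Ev v).Finite
  /-- Serre: the ranks are independent of `ℓ` -/
  rank : ∀ p p', D.rk p = D.rk p'
  rank' : ∀ p p', D.rk' p = D.rk' p'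
  /-- the kernel of the map of monodromy groups is finite if and only if the ranks agree -/
  abType_iff : ∀ p, D.AbType p ↔ D.rk' p = D.rk p
  /-- `V_p(B)` is a faithful representation of its monodromy group -/
  exists_const : ∀ p, D.AbType p → Nonempty (D.I p)
  k_pos : ∀ p, D.AbType p → ∀ i, 1 ≤ D.k p i
  emb : ∀ p, Nonempty (D.Emb p)
  ht_nonempty : ∀ p i e, (D.ht p i e).Nonempty
  /-- Hodge-Tate weights: those of `ρ_(f,p)` are `0, 1` for all embeddings, those of `Sym^k` are
  `0, …, k`, those of `V_p(B)` are among `0, 1` -/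
  ht_mem : ∀ p, D.AbType p → ∀ i e, ∀ w ∈ D.ht p i e, ∀ j : ℕ, j ≤ D.k p i →
    (j : ℤ) + w = 0 ∨ (j : ℤ) + w = 1
  /-- the coroot: it is `1`, `-1` on the weights of `ρ_(f,p)`, and the reflection permutes the weights
  of `V_p(B)` -/
  coroot_mul : ∀ p v x y, D.coroot p v (x * y) = D.coroot p v x + D.coroot p v y
  coroot_a : ∀ p, D.AbType p → ∀ v, D.coroot p v (D.a v) = 1
  coroot_b : ∀ p, D.AbType p → ∀ v, D.coroot p v (D.b v) = -1
  reflection : ∀ p, D.AbType p → ∀ v, ∀ x ∈ D.Ev v, ∃ n : ℤ, D.coroot p v x = n ∧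
    x * (D.a v * (D.b v)⁻¹) ^ (-n) ∈ D.Ev v
  /-- if all `k` are `1`: the weights of `V_p(B)` on which the coroot is `1` are the sums of the first
  weight of `ρ_(f,p)` and of the weights of the `τ` -/
  weights : ∀ p, D.AbType p → (∀ i, D.k p i = 1) → ∀ v x, (x ∈ D.Ev v ∧ D.coroot p v x = 1) ↔
    ∃ i, ∃ y ∈ D.Et p i v, x = D.a v * y
  /-- representations with Hodge-Tate weights zero are potentially unramified (Sen); the eigenvalues of
  the crystalline Frobenius are then units -/
  slopes : ∀ p, D.AbType p → ∀ i, (∀ e, D.ht p i e = {0}) → ∀ v, D.res v = D.ell p →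
    ∀ y ∈ D.Et p i v, D.val p y = 0
  val_mul : ∀ p x y, D.val p (x * y) = D.val p x + D.val p y
  /-- the eigenvalues of the Frobenius are units outside the residue characteristic -/
  unit_ev : ∀ p v, D.res v ≠ D.ell p → ∀ x ∈ D.Ev v, D.val p x = 0
  unit_a : ∀ p v, D.res v ≠ D.ell p → D.val p (D.a v) = 0
  integral : ∀ x : Qbˣ, (∀ p, D.val p x = 0) → IsIntegral ℤ (x : Qb)
  /-- Weil; Ramanujan's conjecture for `f` -/
  abs_ev : ∀ v, ∀ x ∈ D.Ev v, ∀ φ : Qb →+* ℂ, ‖φ x‖ ^ 2 = D.q v
  abs_a : ∀ v, ∀ φ : Qb →+* ℂ, ‖φ (D.a v)‖ ^ 2 = D.q v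
  q_pos : ∀ v, 0 < D.q v
  /-- Chebotarev: if the eigenvalues of the Frobenius on the semisimple representation `τ` are roots of
  unity for a set of places of density one, then `τ` is trivial on an open subgroup -/
  chebotarev : ∀ p, D.AbType p → ∀ i, D.k p i = 1 →
    (∀ v, D.res v ≠ D.ell p → ∀ y ∈ D.Et p i v, ∃ n : ℕ, 0 < n ∧ y ^ n = 1) → D.Triv p i

/-- Kronecker. -/
theorem kronecker (x : Qb) (hx : IsIntegral ℤ x) (h : ∀ φ : Qb →+* ℂ, ‖φ x‖ = 1) :
    ∃ n : ℕ, 0 < n ∧ x ^ n = 1 := by
  have hA : Algebra.IsAlgebraic ℚ Qb := by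
    have h := AlgebraicClosure.isAlgebraic ℚ
    have e : (DivisionRing.toRatAlgebra : Algebra ℚ Qb) = AlgebraicClosure.instAlgebra ℚ :=
      Subsingleton.elim _ _
    rw [e]
    exact h
  have hxQ : IsIntegral ℚ x := (Algebra.IsAlgebraic.isAlgebraic x).isIntegral
  let K := IntermediateField.adjoin ℚ {x}
  have : FiniteDimensional ℚ K := IntermediateField.adjoin.finiteDimensional hxQ
  have : NumberField K := { to_charZero := inferInstance, to_finiteDimensional := inferInstance }
  let y : K := ⟨x, IntermediateField.mem_adjoin_simple_self ℚ x⟩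
  have hyi : IsIntegral ℤ y := by
    have h1 : IsIntegral ℤ (algebraMap K Qb y) := hx
    exact (isIntegral_algebraMap_iff (FaithfulSMul.algebraMap_injective K Qb)).mp h1
  have hy : ∀ φ : K →+* ℂ, ‖φ y‖ = 1 := by
    intro φ
    let _ : Algebra K ℂ := φ.toAlgebra
    have : Algebra.IsAlgebraic K Qb := Algebra.IsAlgebraic.tower_top (K := ℚ) K
    let ψ : Qb →ₐ[K] ℂ := IsAlgClosed.lift
    have h1 : ψ (algebraMap K Qb y) = algebraMap K ℂ y := ψ.commutes y
    have h2 := h (ψ : Qb →+* ℂ)
    have h3 : (ψ : Qb →+* ℂ) x = φ y := h1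
    rw [h3] at h2
    exact h2
  obtain ⟨n, hn, hpow⟩ := NumberField.Embeddings.pow_eq_one_of_norm_eq_one K ℂ hyi hy
  refine ⟨n, hn, ?_⟩
  have := congrArg (algebraMap K Qb) hpow
  simpa using this

/-- A homomorphism which gives a reflection preserving a finite set is unique on this set. -/
theorem reflection_unique {S : Set Qbˣ} (hS : S.Finite) (c c' : Qbˣ → ℚ)
    (hc : ∀ x y, c (x * y) = c x + c y) (hc' : ∀ x y, c' (x * y) = c' x + c' y) (α : Qbˣ)
    (h2 : c α = 2) (h2' : c' α = 2)
    (hr : ∀ x ∈ S, ∃ n : ℤ, c x = n ∧ x * α ^ (-n) ∈ S)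
    (hr' : ∀ x ∈ S, ∃ n : ℤ, c' x = n ∧ x * α ^ (-n) ∈ S) : ∀ x ∈ S, c x = c' x := by
  have one : ∀ d : Qbˣ → ℚ, (∀ x y, d (x * y) = d x + d y) → ∀ (y : Qbˣ) (n : ℤ), d (y ^ n) = n * d y := by
    intro d hd y n
    let D : Qbˣ →* Multiplicative ℚ := MonoidHom.mk' (fun x => Multiplicative.ofAdd (d x))
      (fun x y => by rw [hd]; rfl)
    have h1 : D (y ^ n) = D y ^ n := map_zpow D y n
    have h3 := congrArg Multiplicative.toAdd h1
    simpa [D] using h3
  -- the translation
  have step : ∀ x ∈ S, ∀ m : ℤ, c' x - c x = m → x * α ^ m ∈ S := by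
    intro x hx m hm
    obtain ⟨n', hn', hy⟩ := hr' x hx
    obtain ⟨n, hn, hz⟩ := hr _ hy
    rw [hc, one c hc, h2] at hn
    have e1 : c x = n + 2 * n' := by push_cast at hn; linarith
    have e2 : m = -n' + -n := by
      have : (m : ℚ) = -n' + -n := by rw [← hm, hn', e1]; ring
      exact_mod_cast this
    rw [e2, zpow_add, ← mul_assoc]
    exact hz
  intro x hx
  obtain ⟨n, hn, -⟩ := hr x hx
  obtain ⟨n', hn', -⟩ := hr' x hx
  have hd : c' x - c x = ((n' - n : ℤ) : ℚ) := by rw [hn, hn']; push_cast; ring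
  have mem : ∀ j : ℕ, x * α ^ ((j : ℤ) * (n' - n)) ∈ S := by
    intro j
    induction j with
    | zero => simpa using hx
    | succ j ih =>
      have := step _ ih (n' - n) (by
        rw [hc, hc', one c hc, one c' hc', h2, h2', ← hd]; ring)
      rw [mul_assoc, ← zpow_add] at this
      convert this using 3
      push_cast; ring
  -- two of the translates agree
  obtain ⟨i, j, hij, he⟩ : ∃ i j : ℕ, i ≠ j ∧
      x * α ^ ((i : ℤ) * (n' - n)) = x * α ^ ((j : ℤ) * (n' - n)) := by
    by_contra hcon
    push Not at hcon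
    have hinj : Function.Injective (fun j : ℕ => x * α ^ ((j : ℤ) * (n' - n))) := by
      intro i j h
      by_contra hne
      exact hcon i j hne h
    exact (Set.infinite_of_injective_forall_mem hinj mem) hS
  have h3 := congrArg c he
  rw [hc, hc, one c hc, one c hc, h2] at h3
  have h4 : ((i : ℚ) - j) * ((n' : ℚ) - n) = 0 := by
    push_cast at h3; linarith
  rcases mul_eq_zero.mp h4 with h5 | h5
  · exact absurd (by exact_mod_cast sub_eq_zero.mp h5) hij
  · rw [hn, hn']; linarith

/-- **Main step.** If the adjoint representation of `f` is of abelian type for one `p`, then `V_p(B)` has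
constituents on which `S` acts nontrivially, and they are `ρ_(f,p) ⊗ τ` with `τ` trivial on an open
subgroup. -/
theorem Pair.Known.main {D : Pair} (h : D.Known) {p : D.Lam} (hp : D.AbType p) :
    Nonempty (D.I p) ∧ ∀ i, D.k p i = 1 ∧ D.Triv p i := by
  have all : ∀ p', D.AbType p' := by
    intro p'
    rw [h.abType_iff, h.rank' p' p, h.rank p' p]
    exact (h.abType_iff p).mp hp
  have k1 : ∀ p i, D.k p i = 1 := by
    intro p i
    obtain ⟨e⟩ := h.emb p
    obtain ⟨w, hw⟩ := h.ht_nonempty p i e
    have hk := h.k_pos p (all p) i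
    by_contra hne
    have h0 := h.ht_mem p (all p) i e w hw 0 (Nat.zero_le _)
    have h2 := h.ht_mem p (all p) i e w hw 2 (by omega)
    push_cast at h0 h2
    omega
  have ht0 : ∀ p i e, D.ht p i e = {0} := by
    intro p i e
    have key : ∀ w ∈ D.ht p i e, w = 0 := by
      intro w hw
      have h0 := h.ht_mem p (all p) i e w hw 0 (Nat.zero_le _)
      have h1 := h.ht_mem p (all p) i e w hw 1 (by rw [k1])
      push_cast at h0 h1
      omega
    obtain ⟨w, hw⟩ := h.ht_nonempty p i e
    ext z
    constructor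
    · intro hz; exact key z hz
    · intro hz
      rw [Set.mem_singleton_iff.mp hz, ← key w hw]; exact hw
  refine ⟨h.exists_const p hp, fun i => ⟨k1 p i, ?_⟩⟩
  refine h.chebotarev p hp i (k1 p i) (fun v hv y hy => ?_)
  -- the coroots for different `p` agree
  have hco : ∀ p', ∀ x ∈ D.Ev v, D.coroot p v x = D.coroot p' v x := by
    intro p'
    have two : ∀ p, D.coroot p v (D.a v * (D.b v)⁻¹) = 2 := by
      intro p
      have h1 := h.coroot_mul p v (D.b v) (D.b v)⁻¹
      have h2 := h.coroot_mul p v 1 1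
      rw [mul_one] at h2
      rw [mul_inv_cancel, h.coroot_b p (all p) v] at h1
      rw [h.coroot_mul, h.coroot_a p (all p) v]
      linarith
    exact reflection_unique (h.finite v) _ _ (h.coroot_mul p v) (h.coroot_mul p' v)
      (D.a v * (D.b v)⁻¹) (two p) (two p') (h.reflection p (all p) v) (h.reflection p' (all p') v)
  have hx := (h.weights p hp (k1 p) v (D.a v * y)).mpr ⟨i, y, hy, rfl⟩
  have hval : ∀ p', D.val p' y = 0 := by
    intro p'
    by_cases hpv : D.res v = D.ell p'
    · have hx' : D.coroot p' v (D.a v * y) = 1 := by rw [← hco p' _ hx.1]; exact hx.2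
      obtain ⟨i', y', hy', he⟩ := (h.weights p' (all p') (k1 p') v (D.a v * y)).mp ⟨hx.1, hx'⟩
      rw [mul_left_cancel he]
      exact h.slopes p' (all p') i' (ht0 p' i') v hpv y' hy'
    · have h1 := h.unit_ev p' v hpv _ hx.1
      rw [h.val_mul, h.unit_a p' v hpv, zero_add] at h1
      exact h1
  have habs : ∀ φ : Qb →+* ℂ, ‖φ y‖ = 1 := by
    intro φ
    have h1 := h.abs_ev v _ hx.1 φ
    have h2 := h.abs_a v φ
    rw [Units.val_mul, map_mul, norm_mul, mul_pow, h2] at h1
    have h3 : ‖φ y‖ ^ 2 = 1 := by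
      have := h.q_pos v
      field_simp at h1 ⊢
      nlinarith [h1]
    have h4 : 0 ≤ ‖φ y‖ := norm_nonneg _
    nlinarith [h3, h4]
  obtain ⟨n, hn, he⟩ := kronecker y (h.integral y hval) habs
  exact ⟨n, hn, Units.ext (by simpa using he)⟩

end Run7.h615.ES
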