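import Pool.Agent.Run7.h615.ES.Forms
import Pool.Agent.Run7.h615.ES.Pair

/-!
# Newforms of abelian type
-/

set_option autoImplicit false

namespace Run7.h615.ES

/-- Known facts on newforms and abelian varieties. -/
structure Basic {Γ E : Type} [Group Γ] [Field E] (O : Opens Γ) (D : Newforms Γ E) : Prop where
  fld_open : ∀ f, D.fld f ∈ O.Op
  isRep : ∀ f, IsRep (D.fld f) (D.rho f)
  /-- extension of the base field -/
  base_change : ∀ K ∈ O.Op, ∀ H ∈ O.Op, K ≤ H → ∀ R, D.Geo H R → D.Geo K R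
  /-- restriction of scalars: `V_ℓ` of the Weil restriction is the induced representation -/
  weil : ∀ K ∈ O.Op, ∀ H ∈ O.Op, K ≤ H → ∀ R, IsRep H R → D.Geo K R → D.Geo H R
  /-- conjugate varieties -/
  conj : ∀ K ∈ O.Op, ∀ R, ∀ σ : Γ, D.Geo K R → D.Geo (cj σ K) (cjRep σ R)
  /-- an abelian variety associated to `f` exists if and only if the representation of `f` occurs in an
  abelian variety over the field of `f` (Shimura, Faltings, Carayol) -/
  assoc : ∀ f, D.HasAV f ↔ D.Geo (D.fld f) (D.rho f)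

/-- The finite-dimensional representations over `E` of the Galois groups `K` of number fields, with
tensor products, duals, symmetric powers; and the data `Pair` for abelian varieties and newforms. -/
structure TensorData {Γ E : Type} [Group Γ] [Field E] (D : Newforms Γ E) where
  Rp : Subgroup Γ → Type
  one : (K : Subgroup Γ) → Rp K
  tens : {K : Subgroup Γ} → Rp K → Rp K → Rp K
  dual : {K : Subgroup Γ} → Rp K → Rp K
  sym : {K : Subgroup Γ} → ℕ → Rp K → Rp K
  /-- `W` is isomorphic to a subrepresentation of `W'` -/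
  Occurs : {K : Subgroup Γ} → Rp K → Rp K → Prop
  /-- `W = 0` -/
  Zero : {K : Subgroup Γ} → Rp K → Prop
  /-- the two-dimensional representation `R` of `K` -/
  two : (K : Subgroup Γ) → (Γ → G2 E) → Rp K
  /-- the three-dimensional representation of `K` on the matrices of trace zero -/
  ad : (K : Subgroup Γ) → (Γ → G2 E) → Rp K
  /-- `V_ℓ(B) ⊗ E` -/
  V : {K : Subgroup Γ} → D.AV K → Rp K
  /-- the data attached to an abelian variety `B` over the field of `K` and to `f` -/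
  pair : {K : Subgroup Γ} → D.AV K → D.Form → Pair
  /-- the given embedding `ℚ̄ → E` -/
  pt : {K : Subgroup Γ} → (B : D.AV K) → (f : D.Form) → (pair B f).Lam

/-- The representations which occur in the tensor constructions of `V_ℓ(B)`. -/
inductive AbT {Γ E : Type} [Group Γ] [Field E] {D : Newforms Γ E} (T : TensorData D)
    {K : Subgroup Γ} (B : D.AV K) : T.Rp K → Prop
  | one : AbT T B (T.one K)
  | V : AbT T B (T.V B)
  | dual (W : T.Rp K) : AbT T B W → AbT T B (T.dual W)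
  | tens (W W' : T.Rp K) : AbT T B W → AbT T B W' → AbT T B (T.tens W W')
  | sub (W W' : T.Rp K) : T.Occurs W W' → AbT T B W' → AbT T B W

/-- The known facts. -/
structure TensorKnown {Γ E : Type} [Group Γ] [Field E] (O : Opens Γ) {D : Newforms Γ E}
    (T : TensorData D) : Prop where
  /-- the endomorphisms of `Sym^n R ⊗ X` contain the adjoint representation of `R` -/
  ad_occurs : ∀ (K : Subgroup Γ) (R : Γ → G2 E) (n : ℕ) (X : T.Rp K), IsRep K R → 1 ≤ n → ¬ T.Zero X →
    T.Occurs (T.ad K R) (T.tens (T.tens (T.sym n (T.two K R)) X)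
      (T.dual (T.tens (T.sym n (T.two K R)) X)))
  sym_one : ∀ (K : Subgroup Γ) (W X : T.Rp K), T.Occurs (T.tens (T.sym 1 W) X) (T.tens W X)
  tens_one : ∀ (K : Subgroup Γ) (W : T.Rp K), T.Occurs (T.tens W (T.one K)) W
  one_ne : ∀ K : Subgroup Γ, ¬ T.Zero (T.one K)
  two_ne : ∀ (K : Subgroup Γ) (R : Γ → G2 E), ¬ T.Zero (T.two K R)
  tens_ne : ∀ (K : Subgroup Γ) (W W' : T.Rp K), ¬ T.Zero W → ¬ T.Zero W' → ¬ T.Zero (T.tens W W')
  occ_iff : ∀ (K : Subgroup Γ) (R : Γ → G2 E) (B : D.AV K), IsRep K R →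
    (D.Occ K R B ↔ T.Occurs (T.two K R) (T.V B))
  /-- products of abelian varieties -/
  prod : ∀ (K : Subgroup Γ) (B B' : D.AV K), ∃ C : D.AV K, ∀ R : Γ → G2 E,
    (D.Occ K R B → D.Occ K R C) ∧ (D.Occ K R B' → D.Occ K R C)
  /-- the known facts on an abelian variety and a newform without complex multiplication -/
  pair_known : ∀ K ∈ O.Op, ∀ (B : D.AV K) (f : D.Form), K ≤ D.fld f → ¬ D.CM f → (T.pair B f).Known
  abType : ∀ K ∈ O.Op, ∀ (B : D.AV K) (f : D.Form), K ≤ D.fld f → ¬ D.CM f →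
    AbT T B (T.ad K (D.rho f)) → (T.pair B f).AbType (T.pt B f)
  /-- if `ρ_f ⊗ τ` is a constituent of `V_ℓ(B)` and `τ` is trivial on an open subgroup, then `ρ_f` occurs in
  `V_ℓ(B)` over some number field -/
  occurs : ∀ K ∈ O.Op, ∀ (B : D.AV K) (f : D.Form), K ≤ D.fld f → ¬ D.CM f →
    ∀ i : (T.pair B f).I (T.pt B f), (T.pair B f).k (T.pt B f) i = 1 → (T.pair B f).Triv (T.pt B f) i →
      ∃ K' ∈ O.Op, K' ≤ K ∧ D.Geo K' (D.rho f)

section

variable {Γ E : Type} [Group Γ] [Field E] {O : Opens Γ} {D : Newforms Γ E} {T : TensorData D}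

/-- The tensor product of the conjugates of `ρ_f` by the members of a list. -/
def TensorData.conjProd (T : TensorData D) (K : Subgroup Γ) (f : D.Form) : List Γ → T.Rp K
  | [] => T.one K
  | σ :: l => T.tens (T.two K (cjRep σ (D.rho f))) (T.conjProd K f l)

theorem hasAV_of_ad (h : Basic O D) (hT : TensorKnown O T) {f : D.Form} (hf : ¬ D.CM f)
    {K : Subgroup Γ} (hK : K ∈ O.Op) (hKf : K ≤ D.fld f) (B : D.AV K)
    (hB : AbT T B (T.ad K (D.rho f))) : D.HasAV f := by
  obtain ⟨⟨i⟩, hi⟩ := (hT.pair_known K hK B f hKf hf).main (hT.abType K hK B f hKf hf hB)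
  obtain ⟨K', hK', hle, hg⟩ := hT.occurs K hK B f hKf hf i (hi i).1 (hi i).2
  rw [h.assoc]
  exact h.weil K' hK' _ (h.fld_open f) (hle.trans hKf) _ (h.isRep f) hg

theorem hasAV_of_sym (h : Basic O D) (hT : TensorKnown O T) {f : D.Form} (hf : ¬ D.CM f)
    {K : Subgroup Γ} (hK : K ∈ O.Op) (hKf : K ≤ D.fld f) (B : D.AV K) {n : ℕ} (hn : 1 ≤ n)
    {X : T.Rp K} (hX : ¬ T.Zero X) (hB : AbT T B (T.tens (T.sym n (T.two K (D.rho f))) X)) :
    D.HasAV f :=
  hasAV_of_ad h hT hf hK hKf B (AbT.sub _ _ (hT.ad_occurs K _ n X ((h.isRep f).mono hKf) hn hX)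
    (AbT.tens _ _ hB (AbT.dual _ hB)))

theorem conjProd_ne (hT : TensorKnown O T) (K : Subgroup Γ) (f : D.Form) (l : List Γ) :
    ¬ T.Zero (T.conjProd K f l) := by
  induction l with
  | nil => exact hT.one_ne K
  | cons σ l ih => exact hT.tens_ne K _ _ (hT.two_ne K _) ih

theorem exists_common (h : Basic O D) (hT : TensorKnown O T) {f : D.Form} (hf : D.HasAV f)
    (l : List Γ) : ∃ K ∈ O.Op, K ≤ D.fld f ∧ (∀ σ ∈ l, K ≤ cj σ (D.fld f)) ∧ ∃ B : D.AV K,
      D.Occ K (D.rho f) B ∧ ∀ σ ∈ l, D.Occ K (cjRep σ (D.rho f)) B := by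
  induction l with
  | nil =>
    obtain ⟨B, hB⟩ := (h.assoc f).mp hf
    exact ⟨D.fld f, h.fld_open f, le_rfl, by simp, B, hB, by simp⟩
  | cons σ l ih =>
    obtain ⟨K, hK, hKf, hKl, B, hB, hBl⟩ := ih
    have hσ := h.conj _ (h.fld_open f) _ σ ((h.assoc f).mp hf)
    let L := K ⊓ cj σ (D.fld f)
    have hL : L ∈ O.Op := O.inf _ hK _ (O.conj _ (h.fld_open f) σ)
    obtain ⟨B1, hB1⟩ := h.base_change L hL _ (O.conj _ (h.fld_open f) σ) inf_le_right _ hσ
    -- all the representations for `K` occur in one abelian variety over the field of `L`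
    have key : ∀ m : List (Γ → G2 E), (∀ R ∈ m, D.Geo K R) → ∃ C : D.AV L,
        D.Occ L (cjRep σ (D.rho f)) C ∧ ∀ R ∈ m, D.Occ L R C := by
      intro m
      induction m with
      | nil => intro _; exact ⟨B1, hB1, by simp⟩
      | cons R m ihm =>
        intro hm
        obtain ⟨C, hC, hCm⟩ := ihm (fun R' hR' => hm R' (List.mem_cons_of_mem _ hR'))
        obtain ⟨B2, hB2⟩ := h.base_change L hL K hK inf_le_left _ (hm R List.mem_cons_self)
        obtain ⟨C', hC'⟩ := hT.prod L C B2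
        refine ⟨C', (hC' _).1 hC, fun R' hR' => ?_⟩
        rcases List.mem_cons.mp hR' with h1 | h1
        · rw [h1]; exact (hC' _).2 hB2
        · exact (hC' _).1 (hCm R' h1)
    obtain ⟨C, hC, hCl⟩ := key (D.rho f :: l.map (fun τ => cjRep τ (D.rho f))) (by
      intro R hR
      rcases List.mem_cons.mp hR with h1 | h1
      · rw [h1]; exact ⟨B, hB⟩
      · obtain ⟨τ, hτ, rfl⟩ := List.mem_map.mp h1
        exact ⟨B, hBl τ hτ⟩)
    refine ⟨L, hL, inf_le_left.trans hKf, ?_, C, hCl _ List.mem_cons_self, ?_⟩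
    · intro τ hτ
      rcases List.mem_cons.mp hτ with h1 | h1
      · rw [h1]; exact inf_le_right
      · exact inf_le_left.trans (hKl τ h1)
    · intro τ hτ
      rcases List.mem_cons.mp hτ with h1 | h1
      · rw [h1]; exact hC
      · exact hCl _ (List.mem_cons_of_mem _ (List.mem_map.mpr ⟨τ, h1, rfl⟩))

theorem isRep_cjRep {H K : Subgroup Γ} {R : Γ → G2 E} (hR : IsRep H R) {σ : Γ} (hK : K ≤ cj σ H) :
    IsRep K (cjRep σ R) := by
  intro x hx y hy
  have := hR _ (mem_cj.mp (hK hx)) _ (mem_cj.mp (hK hy))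
  simp only [cjRep]
  rw [← this]; congr 1; group

theorem abT_conjProd (h : Basic O D) (hT : TensorKnown O T) {K : Subgroup Γ} {f : D.Form} {B : D.AV K}
    (l : List Γ) (hK : ∀ σ ∈ l, K ≤ cj σ (D.fld f))
    (hl : ∀ σ ∈ l, D.Occ K (cjRep σ (D.rho f)) B) : AbT T B (T.conjProd K f l) := by
  induction l with
  | nil => exact AbT.one
  | cons σ l ih =>
    refine AbT.tens _ _ (AbT.sub _ _ ((hT.occ_iff K _ B
      (isRep_cjRep (h.isRep f) (hK σ List.mem_cons_self))).mp (hl σ List.mem_cons_self)) AbT.V) ?_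
    exact ih (fun τ hτ => hK τ (List.mem_cons_of_mem _ hτ)) (fun τ hτ => hl τ (List.mem_cons_of_mem _ hτ))

/-- The abelian variety exists if and only if some `Sym^n(ρ_f) ⊗ X` is of abelian type. -/
theorem hasAV_iff_abelianType (h : Basic O D) (hT : TensorKnown O T) (f : D.Form) (hf : ¬ D.CM f) :
    D.HasAV f ↔ ∃ K ∈ O.Op, K ≤ D.fld f ∧ ∃ (B : D.AV K) (n : ℕ) (X : T.Rp K), 1 ≤ n ∧ ¬ T.Zero X ∧
      AbT T B (T.tens (T.sym n (T.two K (D.rho f))) X) := by
  constructor
  · intro hA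
    obtain ⟨B, hB⟩ := (h.assoc f).mp hA
    refine ⟨D.fld f, h.fld_open f, le_rfl, B, 1, T.one _, le_rfl, hT.one_ne _, ?_⟩
    refine AbT.sub _ _ (hT.sym_one _ _ _) (AbT.sub _ _ (hT.tens_one _ _) ?_)
    exact AbT.sub _ _ ((hT.occ_iff _ _ B (h.isRep f)).mp hB) AbT.V
  · rintro ⟨K, hK, hKf, B, n, X, hn, hX, hB⟩
    exact hasAV_of_sym h hT hf hK hKf B hn hX hB

/-- The abelian variety exists if and only if the tensor product of `ρ_f` and any number of its
conjugates is of abelian type. -/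
theorem hasAV_iff_conjProd (h : Basic O D) (hT : TensorKnown O T) (f : D.Form) (hf : ¬ D.CM f)
    (l : List Γ) : D.HasAV f ↔ ∃ K ∈ O.Op, K ≤ D.fld f ∧ (∀ σ ∈ l, K ≤ cj σ (D.fld f)) ∧
      ∃ B : D.AV K, AbT T B (T.tens (T.two K (D.rho f)) (T.conjProd K f l)) := by
  constructor
  · intro hA
    obtain ⟨K, hK, hKf, hKl, B, hB, hBl⟩ := exists_common h hT hA l
    refine ⟨K, hK, hKf, hKl, B, AbT.tens _ _ ?_ (abT_conjProd h hT l hKl hBl)⟩
    exact AbT.sub _ _ ((hT.occ_iff _ _ B ((h.isRep f).mono hKf)).mp hB) AbT.V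
  · rintro ⟨K, hK, hKf, -, B, hB⟩
    exact hasAV_of_sym h hT hf hK hKf B le_rfl (conjProd_ne hT K f l)
      (AbT.sub _ _ (hT.sym_one _ _ _) hB)

end

end Run7.h615.ES
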