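import Pool.Agent.Run7.h615.ES.Pair

/-!
# Abelian varieties whose tensor category contains the adjoint representation of a Bianchi newform

`B` is an abelian variety over a number field `L` containing the imaginary quadratic field `K`, and `f`
is a Bianchi newform of weight 2 over `K` which is not dihedral. `L` is replaced by a finite extension such
that the algebraic monodromy groups are connected. The Hodge-Tate weights are only used for a set of
primes of density one.
-/

set_option autoImplicit false

namespace Run7.h615.ES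

/-- The data of an abelian variety `B` over a number field and of a newform `f`; `Lam` is the set of
all embeddings `p` of `ℚ̄` into `ℚ̄_ℓ`, for all primes `ℓ`. If the adjoint representation of `f` occurs in
the tensor category of `V_p(B)`, the algebraic monodromy group of `V_p(B) ⊕ ρ_(f,p)` has exactly one simple
factor `S = SL₂` which acts nontrivially on `ρ_(f,p)`; the irreducible constituents of `V_p(B)` on which
`S` acts nontrivially have the form `Sym^k(ρ_(f,p)) ⊗ τ`. -/
structure BPair (Lam : Type) (ell : Lam → ℕ) (val : Lam → Qbˣ → ℚ) where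
  /-- the primes `ℓ`, of density one, for which `ρ_(f,p)` is crystalline at the places over `ℓ`, with
  Hodge-Tate weights `0, 1`, and `B` has good reduction at these places -/
  Good : Lam → Prop
  /-- a set of density one of places `v` of `L` over the good primes at which `B` and `f` have good
  reduction and whose Frobenius torus is a maximal torus of the monodromy group of
  `V_p(B) ⊕ ρ_(f,p)` for all `p` -/
  Pl : Type
  res : Pl → ℕ
  q : Pl → ℝ
  /-- the eigenvalues of the Frobenius at `v` on `V(B)` -/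
  Ev : Pl → Set Qbˣ
  /-- the eigenvalues of the Frobenius at `v` on `ρ_f` -/
  a : Pl → Qbˣ
  b : Pl → Qbˣ
  /-- the ranks of the monodromy groups of `V_p(B)` and of `V_p(B) ⊕ ρ_(f,p)` -/
  rk : Lam → ℕ
  rk' : Lam → ℕ
  /-- over some number field the adjoint representation of `ρ_(f,p)` occurs in a tensor construction of
  `V_p(B)` -/
  AbType : Lam → Prop
  /-- the irreducible constituents `Sym^k(ρ_(f,p)) ⊗ τ` of `V_p(B)` on which `S` acts nontrivially -/
  I : Lam → Type
  k : (p : Lam) → I p → ℕ
  /-- the embeddings of `L` into `ℚ̄_ℓ`, and the Hodge-Tate weights of `τ` -/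
  Emb : Lam → Type
  ht : (p : Lam) → I p → Emb p → Set ℤ
  /-- the eigenvalues of the Frobenius at `v` on `τ` (of the crystalline Frobenius if `v` lies over `ℓ`) -/
  Et : (p : Lam) → I p → Pl → Set Qbˣ
  /-- the coroot of `S`, as a homomorphism on the character group of the Frobenius torus, extended to
  `ℚ̄ˣ` -/
  coroot : Lam → Pl → Qbˣ → ℚ
  /-- `τ` is trivial on an open subgroup -/
  Triv : (p : Lam) → I p → Prop

/-- The known facts on the data. -/
structure BPair.Known {Lam : Type} {ell : Lam → ℕ} {val : Lam → Qbˣ → ℚ} (D : BPair Lam ell val) :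
    Prop where
  finite : ∀ v, (D.Ev v).Finite
  /-- Serre: the ranks are independent of `ℓ` -/
  rank : ∀ p p', D.rk p = D.rk p'
  rank' : ∀ p p', D.rk' p = D.rk' p'
  /-- the kernel of the map of monodromy groups is finite if and only if the ranks agree -/
  abType_iff : ∀ p, D.AbType p ↔ D.rk' p = D.rk p
  /-- `V_p(B)` is a faithful representation of its monodromy group -/
  exists_const : ∀ p, D.AbType p → Nonempty (D.I p)
  k_pos : ∀ p, D.AbType p → ∀ i, 1 ≤ D.k p i
  good : ∃ p, D.Good p
  good_of_res : ∀ v p, D.res v = ell p → D.Good p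
  place : Nonempty D.Pl
  emb : ∀ p, Nonempty (D.Emb p)
  ht_nonempty : ∀ p i e, (D.ht p i e).Nonempty
  /-- Hodge-Tate weights: those of `ρ_(f,p)` are `0, 1` for all embeddings, those of `Sym^k` are
  `0, …, k`, those of `V_p(B)` are among `0, 1` -/
  ht_mem : ∀ p, D.Good p → D.AbType p → ∀ i e, ∀ w ∈ D.ht p i e, ∀ j : ℕ, j ≤ D.k p i →
    (j : ℤ) + w = 0 ∨ (j : ℤ) + w = 1
  /-- the coroot: it is `1`, `-1` on the weights of `ρ_(f,p)`, zero on the weights of the `τ`, and the
  reflection permutes the weights of `V_p(B)` -/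
  coroot_mul : ∀ p v x y, D.coroot p v (x * y) = D.coroot p v x + D.coroot p v y
  coroot_a : ∀ p, D.AbType p → ∀ v, D.coroot p v (D.a v) = 1
  coroot_b : ∀ p, D.AbType p → ∀ v, D.coroot p v (D.b v) = -1
  coroot_et : ∀ p, D.AbType p → ∀ v i, ∀ y ∈ D.Et p i v, D.coroot p v y = 0
  reflection : ∀ p, D.AbType p → ∀ v, ∀ x ∈ D.Ev v, ∃ n : ℤ, D.coroot p v x = n ∧
    x * (D.a v * (D.b v)⁻¹) ^ (-n) ∈ D.Ev v
  et_nonempty : ∀ p, D.AbType p → ∀ i v, (D.Et p i v).Nonempty
  /-- the weights of `V_p(B)` -/
  weights : ∀ p, D.AbType p → ∀ v, ∀ x ∈ D.Ev v, D.coroot p v x = 0 ∨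
    ∃ i, ∃ y ∈ D.Et p i v, ∃ j : ℕ, j ≤ D.k p i ∧ x = D.a v ^ (D.k p i - j) * D.b v ^ j * y
  weights' : ∀ p, D.AbType p → ∀ v i, ∀ y ∈ D.Et p i v, D.a v ^ D.k p i * y ∈ D.Ev v
  /-- representations with Hodge-Tate weights zero are potentially unramified (Sen); the eigenvalues of
  the crystalline Frobenius are then units -/
  slopes : ∀ p, D.Good p → D.AbType p → ∀ i, (∀ e, D.ht p i e = {0}) → ∀ v, D.res v = ell p →
    ∀ y ∈ D.Et p i v, val p y = 0
  /-- the eigenvalues of the Frobenius are units outside the residue characteristic -/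
  unit_ev : ∀ p v, D.res v ≠ ell p → ∀ x ∈ D.Ev v, val p x = 0
  unit_a : ∀ p v, D.res v ≠ ell p → val p (D.a v) = 0
  /-- Weil; Ramanujan's conjecture for `f` (Boxer, Calegari, Gee, Newton, Thorne) -/
  abs_ev : ∀ v, ∀ x ∈ D.Ev v, ∀ φ : Qb →+* ℂ, ‖φ x‖ ^ 2 = D.q v
  abs_a : ∀ v, ∀ φ : Qb →+* ℂ, ‖φ (D.a v)‖ ^ 2 = D.q v
  q_pos : ∀ v, 0 < D.q v
  /-- Chebotarev: if the eigenvalues of the Frobenius on the semisimple representation `τ` are roots of
  unity for a set of places of density one, then `τ` is trivial on an open subgroup -/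
  chebotarev : ∀ p, D.AbType p → ∀ i, D.k p i = 1 →
    (∀ v, D.res v ≠ ell p → ∀ y ∈ D.Et p i v, ∃ n : ℕ, 0 < n ∧ y ^ n = 1) → D.Triv p i

theorem hom_pow {d : Qbˣ → ℚ} (hd : ∀ x y, d (x * y) = d x + d y) (y : Qbˣ) (n : ℕ) :
    d (y ^ n) = n * d y := by
  induction n with
  | zero =>
    have := hd 1 1
    rw [mul_one] at this
    simp only [pow_zero, Nat.cast_zero, zero_mul]
    linarith
  | succ n ih => rw [pow_succ, hd, ih]; push_cast; ring

/-- **Main step.** If the adjoint representation of `f` is of abelian type for one `p`, then `V_p(B)` has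
constituents on which `S` acts nontrivially, and they are `ρ_(f,p) ⊗ τ` with `τ` trivial on an open
subgroup; for all `p`. -/
theorem BPair.Known.main {Lam : Type} {ell : Lam → ℕ} {val : Lam → Qbˣ → ℚ} {D : BPair Lam ell val}
    (hmul : ∀ p x y, val p (x * y) = val p x + val p y)
    (hint : ∀ x : Qbˣ, (∀ p, val p x = 0) → IsIntegral ℤ (x : Qb)) (h : D.Known) {p₀ : Lam}
    (hp₀ : D.AbType p₀) (p : Lam) : Nonempty (D.I p) ∧ ∀ i, D.k p i = 1 ∧ D.Triv p i := by
  have all : ∀ p', D.AbType p' := by
    intro p'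
    rw [h.abType_iff, h.rank' p' p₀, h.rank p' p₀]
    exact (h.abType_iff p₀).mp hp₀
  have k1g : ∀ p, D.Good p → ∀ i, D.k p i = 1 := by
    intro p hg i
    obtain ⟨e⟩ := h.emb p
    obtain ⟨w, hw⟩ := h.ht_nonempty p i e
    have hk := h.k_pos p (all p) i
    by_contra hne
    have h0 := h.ht_mem p hg (all p) i e w hw 0 (Nat.zero_le _)
    have h2 := h.ht_mem p hg (all p) i e w hw 2 (by omega)
    push_cast at h0 h2
    omega
  have ht0 : ∀ p, D.Good p → ∀ i e, D.ht p i e = {0} := by
    intro p hg i e
    have key : ∀ w ∈ D.ht p i e, w = 0 := by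
      intro w hw
      have h0 := h.ht_mem p hg (all p) i e w hw 0 (Nat.zero_le _)
      have h1 := h.ht_mem p hg (all p) i e w hw 1 (by rw [k1g p hg])
      push_cast at h0 h1
      omega
    obtain ⟨w, hw⟩ := h.ht_nonempty p i e
    ext z
    constructor
    · intro hz; exact key z hz
    · intro hz
      rw [Set.mem_singleton_iff.mp hz, ← key w hw]; exact hw
  -- the coroots for different `p` agree
  have two : ∀ p v, D.coroot p v (D.a v * (D.b v)⁻¹) = 2 := by
    intro p v
    have h1 := h.coroot_mul p v (D.b v) (D.b v)⁻¹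
    have h2 := h.coroot_mul p v 1 1
    rw [mul_one] at h2
    rw [mul_inv_cancel, h.coroot_b p (all p) v] at h1
    rw [h.coroot_mul, h.coroot_a p (all p) v]
    linarith
  have hco : ∀ p p' v, ∀ x ∈ D.Ev v, D.coroot p v x = D.coroot p' v x := by
    intro p p' v
    exact reflection_unique (h.finite v) _ _ (h.coroot_mul p v) (h.coroot_mul p' v)
      (D.a v * (D.b v)⁻¹) (two p v) (two p' v) (h.reflection p (all p) v) (h.reflection p' (all p') v)
  -- values of the coroot at a good place
  have hgood : ∀ p, D.Good p → ∀ v, ∀ x ∈ D.Ev v, D.coroot p v x = 0 ∨ D.coroot p v x = -1 ∨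
      (D.coroot p v x = 1 ∧ ∃ i, ∃ y ∈ D.Et p i v, x = D.a v * y) := by
    intro p hg v x hx
    rcases h.weights p (all p) v x hx with h0 | ⟨i, y, hy, j, hj, he⟩
    · exact Or.inl h0
    · rw [k1g p hg i] at hj he
      have hjj : j = 0 ∨ j = 1 := by omega
      rcases hjj with rfl | rfl
      · right; right
        simp only [Nat.sub_zero, pow_one, pow_zero, mul_one] at he
        refine ⟨?_, i, y, hy, he⟩
        rw [he, h.coroot_mul, h.coroot_a p (all p), h.coroot_et p (all p) v i y hy, add_zero]
      · right; left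
        simp only [Nat.sub_self, pow_one, pow_zero, one_mul] at he
        rw [he, h.coroot_mul, h.coroot_b p (all p), h.coroot_et p (all p) v i y hy, add_zero]
  have k1 : ∀ p i, D.k p i = 1 := by
    intro p i
    obtain ⟨v⟩ := h.place
    obtain ⟨p', hp'⟩ := h.good
    obtain ⟨y, hy⟩ := h.et_nonempty p (all p) i v
    have hx := h.weights' p (all p) v i y hy
    have hv : D.coroot p v (D.a v ^ D.k p i * y) = D.k p i := by
      rw [h.coroot_mul, hom_pow (h.coroot_mul p v), h.coroot_a p (all p),
        h.coroot_et p (all p) v i y hy, mul_one, add_zero]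
    rw [hco p p' v _ hx] at hv
    have hk := h.k_pos p (all p) i
    have hk' : (1 : ℚ) ≤ D.k p i := by exact_mod_cast hk
    rcases hgood p' hp' v _ hx with h0 | h0 | h0
    · rw [h0] at hv; linarith
    · rw [h0] at hv; linarith
    · rw [h0.1] at hv; exact_mod_cast hv.symm
  refine ⟨h.exists_const p (all p), fun i => ⟨k1 p i, ?_⟩⟩
  refine h.chebotarev p (all p) i (k1 p i) (fun v hv y hy => ?_)
  have hx := h.weights' p (all p) v i y hy
  rw [k1, pow_one] at hx
  have hx1 : D.coroot p v (D.a v * y) = 1 := by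
    rw [h.coroot_mul, h.coroot_a p (all p), h.coroot_et p (all p) v i y hy, add_zero]
  have hval : ∀ p', val p' y = 0 := by
    intro p'
    by_cases hpv : D.res v = ell p'
    · have hg := h.good_of_res v p' hpv
      rcases hgood p' hg v _ hx with h0 | h0 | ⟨-, i', y', hy', he⟩
      · rw [← hco p p' v _ hx, hx1] at h0; norm_num at h0
      · rw [← hco p p' v _ hx, hx1] at h0; norm_num at h0
      · rw [mul_left_cancel he]
        exact h.slopes p' hg (all p') i' (ht0 p' hg i') v hpv y' hy'
    · have h1 := h.unit_ev p' v hpv _ hx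
      rw [hmul, h.unit_a p' v hpv, zero_add] at h1
      exact h1
  have habs : ∀ φ : Qb →+* ℂ, ‖φ y‖ = 1 := by
    intro φ
    have h1 := h.abs_ev v _ hx φ
    have h2 := h.abs_a v φ
    rw [Units.val_mul, map_mul, norm_mul, mul_pow, h2] at h1
    have h3 : ‖φ y‖ ^ 2 = 1 := by
      have := h.q_pos v
      field_simp at h1 ⊢
      nlinarith [h1]
    have h4 : 0 ≤ ‖φ y‖ := norm_nonneg _
    nlinarith [h3, h4]
  obtain ⟨n, hn, he⟩ := kronecker y (hint y hval) habs
  exact ⟨n, hn, Units.ext (by simpa using he)⟩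

end Run7.h615.ES
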