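import Pool.Agent.Run7.h615.ES.BPair

/-!
# Bianchi newforms of abelian type
-/

set_option autoImplicit false

namespace Run7.h615.ES

/-- The Bianchi newforms of weight 2 over an imaginary quadratic field `K`, their Galois representations,
and abelian varieties over the number fields containing `K`. -/
structure Bianchi where
  /-- the embeddings `p` of `ℚ̄` into `ℚ̄_ℓ`, for all primes `ℓ`, and the valuations on `ℚ̄` -/
  Lam : Type
  ell : Lam → ℕ
  val : Lam → Qbˣ → ℚ
  /-- the Bianchi newforms `f` over `K` of weight 2 with `χ = χ^c` which are not dihedral -/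
  Form : Type
  /-- the finite extensions of `K`, and `K` -/
  Fld : Type
  base : Fld
  /-- the abelian varieties over `L` -/
  AV : Fld → Type
  /-- the finite-dimensional representations of `Gal(ℚ̄/L)` over `ℚ̄_ℓ`, `ℓ = ell p` -/
  Rp : Lam → Fld → Type
  one : (p : Lam) → (L : Fld) → Rp p L
  tens : {p : Lam} → {L : Fld} → Rp p L → Rp p L → Rp p L
  dual : {p : Lam} → {L : Fld} → Rp p L → Rp p L
  sym : {p : Lam} → {L : Fld} → ℕ → Rp p L → Rp p L
  /-- `W` is isomorphic to a subrepresentation of `W'` -/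
  Occurs : {p : Lam} → {L : Fld} → Rp p L → Rp p L → Prop
  Zero : {p : Lam} → {L : Fld} → Rp p L → Prop
  /-- the restriction of `ρ_(f,p)` to `Gal(ℚ̄/L)`, and its adjoint representation (trace zero) -/
  rho : (p : Lam) → (L : Fld) → Form → Rp p L
  ad : (p : Lam) → (L : Fld) → Form → Rp p L
  /-- `V_ℓ(B) ⊗ ℚ̄_ℓ` -/
  V : (p : Lam) → {L : Fld} → AV L → Rp p L
  /-- `ρ_(f,p)` is a subquotient of a Tate twist of the étale cohomology of a smooth projective variety
  over `K` -/
  Arises : Lam → Form → Prop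
  /-- the data attached to an abelian variety and a newform -/
  pair : {L : Fld} → AV L → Form → BPair Lam ell val

/-- The representations which occur in the tensor constructions of `V_p(B)`. -/
inductive Bianchi.AbT (D : Bianchi) (p : D.Lam) {L : D.Fld} (B : D.AV L) : D.Rp p L → Prop
  | one : D.AbT p B (D.one p L)
  | V : D.AbT p B (D.V p B)
  | dual (W : D.Rp p L) : D.AbT p B W → D.AbT p B (D.dual W)
  | tens (W W' : D.Rp p L) : D.AbT p B W → D.AbT p B W' → D.AbT p B (D.tens W W')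
  | sub (W W' : D.Rp p L) : D.Occurs W W' → D.AbT p B W' → D.AbT p B W

/-- The known facts. -/
structure Bianchi.Known (D : Bianchi) : Prop where
  val_mul : ∀ p x y, D.val p (x * y) = D.val p x + D.val p y
  integral : ∀ x : Qbˣ, (∀ p, D.val p x = 0) → IsIntegral ℤ (x : Qb)
  nonempty : Nonempty D.Lam
  /-- the endomorphisms of `Sym^n(ρ) ⊗ X` contain the adjoint representation of `ρ` -/
  ad_occurs : ∀ p (L : D.Fld) (f : D.Form) (n : ℕ) (X : D.Rp p L), 1 ≤ n → ¬ D.Zero X →
    D.Occurs (D.ad p L f) (D.tens (D.tens (D.sym n (D.rho p L f)) X)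
      (D.dual (D.tens (D.sym n (D.rho p L f)) X)))
  sym_one : ∀ p (L : D.Fld) (W X : D.Rp p L), D.Occurs (D.tens (D.sym 1 W) X) (D.tens W X)
  tens_one : ∀ p (L : D.Fld) (W : D.Rp p L), D.Occurs (D.tens W (D.one p L)) W
  one_ne : ∀ p (L : D.Fld), ¬ D.Zero (D.one p L)
  pair_known : ∀ (L : D.Fld) (B : D.AV L) (f : D.Form), (D.pair B f).Known
  abType : ∀ p (L : D.Fld) (B : D.AV L) (f : D.Form), D.AbT p B (D.ad p L f) → (D.pair B f).AbType p
  /-- if `ρ_(f,p) ⊗ τ` is a constituent of `V_p(B)` and `τ` is trivial on an open subgroup, then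
  `ρ_(f,p)` occurs in `V_p(A)` for a Weil restriction `A` of `B`, and by Faltings for all `p` -/
  occurs : ∀ p (L : D.Fld) (B : D.AV L) (f : D.Form) (i : (D.pair B f).I p),
    (D.pair B f).k p i = 1 → (D.pair B f).Triv p i →
      ∃ A : D.AV D.base, ∀ p', D.Occurs (D.rho p' D.base f) (D.V p' A)
  /-- `V_p(A)` is a Tate twist of the cohomology of the dual abelian variety -/
  arises : ∀ p (A : D.AV D.base) (f : D.Form), D.Occurs (D.rho p D.base f) (D.V p A) → D.Arises p f

variable {D : Bianchi}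

theorem Bianchi.Known.exists_av (h : D.Known) {p : D.Lam} {L : D.Fld} (B : D.AV L) (f : D.Form)
    {n : ℕ} {X : D.Rp p L} (hn : 1 ≤ n) (hX : ¬ D.Zero X)
    (hB : D.AbT p B (D.tens (D.sym n (D.rho p L f)) X)) :
    ∃ A : D.AV D.base, ∀ p', D.Occurs (D.rho p' D.base f) (D.V p' A) := by
  have had : D.AbT p B (D.ad p L f) :=
    Bianchi.AbT.sub _ _ (h.ad_occurs p L f n X hn hX) (Bianchi.AbT.tens _ _ hB (Bianchi.AbT.dual _ hB))
  obtain ⟨⟨i⟩, hi⟩ := (h.pair_known L B f).main h.val_mul h.integral (h.abType p L B f had) p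
  exact h.occurs p L B f i (hi i).1 (hi i).2

theorem Bianchi.Known.iff (h : D.Known) (f : D.Form) :
    (∃ A : D.AV D.base, ∀ p, D.Occurs (D.rho p D.base f) (D.V p A)) ↔
      ∃ (p : D.Lam) (L : D.Fld) (B : D.AV L) (n : ℕ) (X : D.Rp p L), 1 ≤ n ∧ ¬ D.Zero X ∧
        D.AbT p B (D.tens (D.sym n (D.rho p L f)) X) := by
  constructor
  · rintro ⟨A, hA⟩
    obtain ⟨p⟩ := h.nonempty
    refine ⟨p, D.base, A, 1, D.one p D.base, le_rfl, h.one_ne _ _, ?_⟩
    refine Bianchi.AbT.sub _ _ (h.sym_one _ _ _ _) (Bianchi.AbT.sub _ _ (h.tens_one _ _ _) ?_)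
    exact Bianchi.AbT.sub _ _ (hA p) Bianchi.AbT.V
  · rintro ⟨p, L, B, n, X, hn, hX, hB⟩
    exact h.exists_av B f hn hX hB

end Run7.h615.ES
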