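import Mathlib

/-!
# Two-dimensional representations of open subgroups: virtual invariance and extension

`Γ` is a group (in the applications `Gal(ℚ̄/ℚ)`), with a set of subgroups called open (the groups
`Gal(ℚ̄/K)`, `K` a number field), and `E` is a field (`ℚ̄_ℓ`). A representation of a subgroup `H` is given
by a map on `Γ` which is multiplicative on `H`; only its values on `H` matter.
-/

set_option autoImplicit false

namespace Run7.h615.ES

/-- `GL_2(E)`. -/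
abbrev G2 (E : Type) [Field E] : Type := GL (Fin 2) E

/-- The scalar matrices. -/
noncomputable def sc {E : Type} [Field E] : Eˣ →* G2 E :=
  Units.map ((algebraMap E (Matrix (Fin 2) (Fin 2) E) : E →* Matrix (Fin 2) (Fin 2) E))

/-- `σ H σ⁻¹`. -/
def cj {Γ : Type} [Group Γ] (σ : Γ) (H : Subgroup Γ) : Subgroup Γ :=
  H.comap (MulAut.conj σ⁻¹).toMonoidHom

/-- `R` is a representation of `H`. -/
def IsRep {Γ E : Type} [Group Γ] [Field E] (H : Subgroup Γ) (R : Γ → G2 E) : Prop :=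
  ∀ x ∈ H, ∀ y ∈ H, R (x * y) = R x * R y

/-- The open subgroups of `Γ`. -/
structure Opens (Γ : Type) [Group Γ] where
  Op : Set (Subgroup Γ)
  top : ⊤ ∈ Op
  inf : ∀ H ∈ Op, ∀ K ∈ Op, H ⊓ K ∈ Op
  conj : ∀ H ∈ Op, ∀ σ : Γ, cj σ H ∈ Op

section

variable {Γ E : Type} [Group Γ] [Field E]

/-- The representation `R` of `H` is strongly irreducible: for every open subgroup `K` of `H`, only the
scalar matrices commute with all `R x`, `x` in `K`. -/
def SI (O : Opens Γ) (H : Subgroup Γ) (R : Γ → G2 E) : Prop :=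
  ∀ K ∈ O.Op, K ≤ H → ∀ M : G2 E, (∀ x ∈ K, M * R x = R x * M) → ∃ c : Eˣ, M = sc c

/-- The representations `R` of `H` and `R'` of `H'` are isomorphic on an open subgroup of `H ∩ H'`. -/
def VIso (O : Opens Γ) (H : Subgroup Γ) (R : Γ → G2 E) (H' : Subgroup Γ) (R' : Γ → G2 E) : Prop :=
  ∃ K ∈ O.Op, K ≤ H ∧ K ≤ H' ∧ ∃ P : G2 E, ∀ x ∈ K, R' x = P * R x * P⁻¹

/-- The conjugate `x ↦ R (σ⁻¹ x σ)` of `R` by `σ`; it is a representation of `σ H σ⁻¹`. -/
def cjRep (σ : Γ) (R : Γ → G2 E) : Γ → G2 E := fun x => R (σ⁻¹ * x * σ)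

/-- The product of a representation and a character. -/
noncomputable def tw (χ : Γ → Eˣ) (R : Γ → G2 E) : Γ → G2 E := fun x => sc (χ x) * R x

/-- `χ` is a character of finite order of `H`: a character of `H` trivial on an open subgroup. -/
def IsChar (O : Opens Γ) (H : Subgroup Γ) (χ : Γ → Eˣ) : Prop :=
  (∀ x ∈ H, ∀ y ∈ H, χ (x * y) = χ x * χ y) ∧ ∃ K ∈ O.Op, K ≤ H ∧ ∀ x ∈ K, χ x = 1

/-- The set of all `σ` in `Γ` for which the conjugate of `R` by `σ` is isomorphic to `R` on an open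
subgroup. -/
def InvSet (O : Opens Γ) (H : Subgroup Γ) (R : Γ → G2 E) : Set Γ :=
  {σ | VIso O (cj σ H) (cjRep σ R) H R}

theorem sc_mul_comm (c : Eˣ) (g : G2 E) : sc c * g = g * sc c := by
  apply Units.ext
  simp [sc, Algebra.commutes]

theorem sc_inj {c d : Eˣ} (h : (sc c : G2 E) = sc d) : c = d := by
  have h1 := congrArg (fun g : G2 E => (g : Matrix (Fin 2) (Fin 2) E) 0 0) h
  simp only [sc, Units.coe_map, MonoidHom.coe_coe, Matrix.algebraMap_matrix_apply, if_true] at h1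
  exact Units.ext h1

theorem mem_cj {σ x : Γ} {H : Subgroup Γ} : x ∈ cj σ H ↔ σ⁻¹ * x * σ ∈ H := by
  simp [cj]

variable {O : Opens Γ} {H K : Subgroup Γ} {R R' : Γ → G2 E}

theorem IsRep.one (h : IsRep H R) : R 1 = 1 := by
  have := h 1 H.one_mem 1 H.one_mem
  rw [mul_one] at this
  exact (mul_eq_left.mp this.symm)

theorem IsRep.inv (h : IsRep H R) {x : Γ} (hx : x ∈ H) : R x⁻¹ = (R x)⁻¹ := by
  have := h x⁻¹ (H.inv_mem hx) x hx
  rw [inv_mul_cancel, h.one] at this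
  exact eq_inv_of_mul_eq_one_left this.symm

theorem IsRep.conj (h : IsRep H R) {x y : Γ} (hx : x ∈ H) (hy : y ∈ H) :
    R (x * y * x⁻¹) = R x * R y * (R x)⁻¹ := by
  rw [h _ (H.mul_mem hx hy) _ (H.inv_mem hx), h x hx y hy, h.inv hx]

theorem IsRep.mono (h : IsRep H R) (hK : K ≤ H) : IsRep K R := fun x hx y hy => h x (hK hx) y (hK hy)

theorem SI.mono (h : SI O H R) (hK : K ≤ H) : SI O K R := fun L hL hLK M hM => h L hL (hLK.trans hK) M hM

/-- Two matrices which intertwine a strongly irreducible `R` with the same values differ by a scalar. -/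
theorem SI.unique (h : SI O H R) (hK : K ∈ O.Op) (hKH : K ≤ H) {P Q : G2 E}
    (he : ∀ x ∈ K, P * R x * P⁻¹ = Q * R x * Q⁻¹) : ∃ c : Eˣ, P = sc c * Q := by
  obtain ⟨c, hc⟩ := h K hK hKH (Q⁻¹ * P) (by
    intro x hx
    have := he x hx
    calc Q⁻¹ * P * R x = Q⁻¹ * (P * R x * P⁻¹) * P := by group
      _ = Q⁻¹ * (Q * R x * Q⁻¹) * P := by rw [this]
      _ = R x * (Q⁻¹ * P) := by group)
  refine ⟨c, ?_⟩
  rw [sc_mul_comm, ← hc]; group

/-- Representations of `H` which agree up to conjugation on an open subgroup differ by a character of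
finite order. -/
theorem twist_of_eq (hH : IsRep H R) (hH' : IsRep H R') (hS : SI O H R) (hK : K ∈ O.Op)
    (hKH : K ≤ H) (P : G2 E) (he : ∀ x ∈ K, R' x = P * R x * P⁻¹) :
    ∃ χ : Γ → Eˣ, IsChar O H χ ∧ ∀ x ∈ H, R' x = P * tw χ R x * P⁻¹ := by
  have key : ∀ x : Γ, ∃ c : Eˣ, x ∈ H → R' x = P * (sc c * R x) * P⁻¹ := by
    intro x
    by_cases hx : x ∈ H
    · obtain ⟨c, hc⟩ := hS.unique (K := K ⊓ cj x⁻¹ K) (O.inf _ hK _ (O.conj _ hK _))
        (inf_le_left.trans hKH) (P := P⁻¹ * R' x * P) (Q := R x) (by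
          intro y hy
          have hy1 : y ∈ K := (Subgroup.mem_inf.mp hy).1
          have hy2 : x * y * x⁻¹ ∈ K := by
            have := mem_cj.mp (Subgroup.mem_inf.mp hy).2
            simpa using this
          have e1 := he _ hy2
          rw [hH'.conj hx (hKH hy1), hH.conj hx (hKH hy1), he y hy1] at e1
          calc P⁻¹ * R' x * P * R y * (P⁻¹ * R' x * P)⁻¹
              = P⁻¹ * (R' x * (P * R y * P⁻¹) * (R' x)⁻¹) * P := by group
            _ = P⁻¹ * (P * (R x * R y * (R x)⁻¹) * P⁻¹) * P := by rw [e1]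
            _ = R x * R y * (R x)⁻¹ := by group)
      refine ⟨c, fun _ => ?_⟩
      rw [← hc]; group
    · exact ⟨1, fun h => absurd h hx⟩
  choose χ hχ using key
  have cancel : ∀ c d : Eˣ, ∀ g : G2 E, P * (sc c * g) * P⁻¹ = P * (sc d * g) * P⁻¹ → c = d := by
    intro c d g h
    exact sc_inj (mul_right_cancel (mul_left_cancel (mul_right_cancel h)))
  refine ⟨χ, ⟨?_, K, hK, hKH, ?_⟩, fun x hx => hχ x hx⟩
  · intro x hx y hy
    apply cancel _ _ (R x * R y)
    rw [← hH x hx y hy, ← hχ _ (H.mul_mem hx hy), hH' x hx y hy, hχ x hx, hχ y hy, hH x hx y hy, map_mul]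
    calc P * (sc (χ x) * R x) * P⁻¹ * (P * (sc (χ y) * R y) * P⁻¹)
        = P * (sc (χ x) * (R x * sc (χ y)) * R y) * P⁻¹ := by group
      _ = P * (sc (χ x) * (sc (χ y) * R x) * R y) * P⁻¹ := by rw [sc_mul_comm (χ y)]
      _ = P * (sc (χ x) * sc (χ y) * (R x * R y)) * P⁻¹ := by group
  · intro x hx
    apply cancel _ _ (R x)
    rw [← hχ x (hKH hx), he x hx, map_one, one_mul]

/-- A twist is isomorphic to the representation on an open subgroup. -/
theorem VIso.of_twist {χ : Γ → Eˣ} (hχ : IsChar O H χ) (P : G2 E)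
    (he : ∀ x ∈ H, R' x = P * tw χ R x * P⁻¹) : VIso O H R H R' := by
  obtain ⟨K, hK, hKH, h1⟩ := hχ.2
  refine ⟨K, hK, hKH, hKH, P, fun x hx => ?_⟩
  rw [he x (hKH hx), tw, h1 x hx, map_one, one_mul]

theorem VIso.symm {H' : Subgroup Γ} (h : VIso O H R H' R') : VIso O H' R' H R := by
  obtain ⟨K, hK, h1, h2, P, hP⟩ := h
  refine ⟨K, hK, h2, h1, P⁻¹, fun x hx => ?_⟩
  rw [hP x hx]; group

theorem VIso.trans {H' H'' : Subgroup Γ} {R'' : Γ → G2 E} (h : VIso O H R H' R')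
    (h' : VIso O H' R' H'' R'') : VIso O H R H'' R'' := by
  obtain ⟨K, hK, h1, h2, P, hP⟩ := h
  obtain ⟨L, hL, h3, h4, Q, hQ⟩ := h'
  refine ⟨K ⊓ L, O.inf _ hK _ hL, inf_le_left.trans h1, inf_le_right.trans h4, Q * P, fun x hx => ?_⟩
  rw [hQ x (Subgroup.mem_inf.mp hx).2, hP x (Subgroup.mem_inf.mp hx).1]; group

theorem VIso.refl (hH : H ∈ O.Op) : VIso O H R H R :=
  ⟨H, hH, le_rfl, le_rfl, 1, fun x _ => by simp⟩

theorem VIso.cj {H' : Subgroup Γ} (h : VIso O H R H' R') (σ : Γ) :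
    VIso O (cj σ H) (cjRep σ R) (ES.cj σ H') (cjRep σ R') := by
  obtain ⟨K, hK, h1, h2, P, hP⟩ := h
  refine ⟨ES.cj σ K, O.conj _ hK σ, fun x hx => mem_cj.mpr (h1 (mem_cj.mp hx)),
    fun x hx => mem_cj.mpr (h2 (mem_cj.mp hx)), P, fun x hx => hP _ (mem_cj.mp hx)⟩

theorem cj_mul (σ τ : Γ) (H : Subgroup Γ) : cj σ (cj τ H) = cj (σ * τ) H := by
  ext x
  simp only [mem_cj]
  rw [show τ⁻¹ * (σ⁻¹ * x * σ) * τ = (σ * τ)⁻¹ * x * (σ * τ) by group]

theorem cjRep_mul (σ τ : Γ) (R : Γ → G2 E) : cjRep σ (cjRep τ R) = cjRep (σ * τ) R := by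
  funext x
  simp only [cjRep]
  rw [show τ⁻¹ * (σ⁻¹ * x * σ) * τ = (σ * τ)⁻¹ * x * (σ * τ) by group]

theorem cj_one (H : Subgroup Γ) : cj 1 H = H := by
  ext x; simp [mem_cj]

theorem cjRep_one (R : Γ → G2 E) : cjRep 1 R = R := by
  funext x; simp [cjRep]

theorem mem_invSet {σ : Γ} : σ ∈ InvSet O H R ↔ VIso O (cj σ H) (cjRep σ R) H R := Iff.rfl

/-- The set of all `σ` for which the conjugate by `σ` is virtually isomorphic to `R` is a subgroup; it
contains `H`. -/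
def invGroup (O : Opens Γ) (H : Subgroup Γ) (hH : H ∈ O.Op) (R : Γ → G2 E) : Subgroup Γ where
  carrier := InvSet O H R
  one_mem' := by
    rw [mem_invSet, cj_one, cjRep_one]; exact VIso.refl hH
  mul_mem' := by
    intro σ τ hσ hτ
    have h1 := (VIso.cj (mem_invSet.mp hτ) σ)
    rw [cj_mul, cjRep_mul] at h1
    exact h1.trans (mem_invSet.mp hσ)
  inv_mem' := by
    intro σ hσ
    have h1 := (VIso.cj (mem_invSet.mp hσ) σ⁻¹)
    rw [cj_mul, cjRep_mul, inv_mul_cancel, cj_one, cjRep_one] at h1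
    exact h1.symm

theorem mem_invSet_of_mem (hH : H ∈ O.Op) (hR : IsRep H R) {σ : Γ} (hσ : σ ∈ H) : σ ∈ InvSet O H R := by
  refine ⟨cj σ H ⊓ H, O.inf _ (O.conj _ hH σ) _ hH, inf_le_left, inf_le_right, R σ, fun x hx => ?_⟩
  have hx1 := mem_cj.mp (Subgroup.mem_inf.mp hx).1
  have := hR.conj hσ hx1
  rw [show σ * (σ⁻¹ * x * σ) * σ⁻¹ = x by group] at this
  exact this

/-- **Extension.** Let `R` be a strongly irreducible representation of the open subgroup `H`, and let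
`G` be a subgroup such that for all `σ ∈ G` the conjugate of `R` by `σ` is virtually isomorphic to
`R`. Then the projective representation of `H` given by `R` extends to a projective representation
of `G`. -/
theorem exists_extension (hR : IsRep H R) (hS : SI O H R) {G : Subgroup Γ}
    (hG : ∀ σ ∈ G, σ ∈ InvSet O H R) (hHG : H ≤ G) :
    ∃ P : Γ → G2 E, (∀ x ∈ G, ∀ y ∈ G, ∃ c : Eˣ, P (x * y) = sc c * (P x * P y)) ∧
      ∀ x ∈ H, ∃ c : Eˣ, P x = sc c * R x := by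
  -- the relation `R (σ x σ⁻¹) = Q R x Q⁻¹` for `x` in an open subgroup
  have key : ∀ σ : Γ, ∃ Q : G2 E, σ ∈ G → ∃ K ∈ O.Op, K ≤ H ∧ (∀ x ∈ K, σ * x * σ⁻¹ ∈ H) ∧
      ∀ x ∈ K, R (σ * x * σ⁻¹) = Q * R x * Q⁻¹ := by
    intro σ
    by_cases hσ : σ ∈ G
    · obtain ⟨K, hK, h1, h2, Q, hQ⟩ := hG σ hσ
      refine ⟨Q, fun _ => ⟨cj σ⁻¹ K, O.conj _ hK _, ?_, ?_, ?_⟩⟩
      · intro x hx
        have hx' : σ * x * σ⁻¹ ∈ K := by simpa using mem_cj.mp hx
        have := mem_cj.mp (h1 hx')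
        rwa [show σ⁻¹ * (σ * x * σ⁻¹) * σ = x by group] at this
      · intro x hx
        have hx' : σ * x * σ⁻¹ ∈ K := by simpa using mem_cj.mp hx
        exact h2 hx'
      · intro x hx
        have hx' : σ * x * σ⁻¹ ∈ K := by simpa using mem_cj.mp hx
        have := hQ _ hx'
        rw [cjRep, show σ⁻¹ * (σ * x * σ⁻¹) * σ = x by group] at this
        exact this
    · exact ⟨1, fun h => absurd h hσ⟩
  choose P hP using key
  refine ⟨P, ?_, ?_⟩
  · intro x hx y hy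
    obtain ⟨K, hK, hKH, hKx, hKe⟩ := hP x hx
    obtain ⟨L, hL, hLH, hLx, hLe⟩ := hP y hy
    obtain ⟨M, hM, hMH, hMx, hMe⟩ := hP (x * y) (G.mul_mem hx hy)
    refine hS.unique (K := (L ⊓ cj y⁻¹ K) ⊓ M) (O.inf _ (O.inf _ hL _ (O.conj _ hK _)) _ hM)
      (inf_le_right.trans hMH) ?_
    intro z hz
    have hz1 : z ∈ L := (Subgroup.mem_inf.mp (Subgroup.mem_inf.mp hz).1).1
    have hz2 : y * z * y⁻¹ ∈ K := by
      simpa using mem_cj.mp (Subgroup.mem_inf.mp (Subgroup.mem_inf.mp hz).1).2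
    have hz3 : z ∈ M := (Subgroup.mem_inf.mp hz).2
    rw [← hMe z hz3, show x * y * z * (x * y)⁻¹ = x * (y * z * y⁻¹) * x⁻¹ by group, hKe _ hz2, hLe _ hz1]
    group
  · intro x hx
    obtain ⟨K, hK, hKH, hKx, hKe⟩ := hP x (hHG hx)
    refine hS.unique (K := K) hK hKH ?_
    intro z hz
    rw [← hKe z hz, hR.conj hx (hKH hz)]

end

end Run7.h615.ES
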