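import Pool.Agent.Run7.h615.ES.Core

/-!
# Hilbert newforms and abelian varieties
-/

set_option autoImplicit false

namespace Run7.h615.ES

/-- The field of `K` is a solvable Galois extension of the field of `H`. -/
def SolvOver {Γ : Type} [Group Γ] (K H : Subgroup Γ) : Prop :=
  K ≤ H ∧ ∃ _h : (K.subgroupOf H).Normal, Group.IsSolvable (H ⧸ K.subgroupOf H)

/-- Hilbert newforms of parallel weight 2 over totally real fields, their `ℓ`-adic representations, and
abelian varieties over number fields. Here `Γ = Gal(ℚ̄/ℚ)`, `E = ℚ̄_ℓ`, and number fields `K` are given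
by the open subgroups `Gal(ℚ̄/K)` of `Γ`. -/
structure Newforms (Γ E : Type) [Group Γ] [Field E] where
  /-- the abelian varieties over the field of `K` -/
  AV : Subgroup Γ → Type
  /-- `Occ K R B`: there is a `K`-equivariant injection of `R` into `V_ℓ(B) ⊗ E` -/
  Occ : (K : Subgroup Γ) → (Γ → G2 E) → AV K → Prop
  /-- the totally real fields -/
  TR : Set (Subgroup Γ)
  /-- the Hilbert newforms of parallel weight 2, over all totally real fields, of all levels and
  characters -/
  Form : Type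
  /-- the field of a newform -/
  fld : Form → Subgroup Γ
  /-- the `ℓ`-adic representation of `f` -/
  rho : Form → Γ → G2 E
  /-- `f` has complex multiplication -/
  CM : Form → Prop
  /-- the automorphic representation of `f` is square-integrable at some finite place -/
  DS : Form → Prop
  /-- `f` has trivial character -/
  TrivChar : Form → Prop
  /-- `f` has level `(1)` -/
  LevelOne : Form → Prop
  /-- `A` is an abelian variety associated to `f` -/
  Assoc : (f : Form) → AV (fld f) → Prop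

namespace Newforms

variable {Γ E : Type} [Group Γ] [Field E]

/-- `f` has an associated abelian variety. -/
def HasAV (D : Newforms Γ E) (f : D.Form) : Prop := ∃ A : D.AV (D.fld f), D.Assoc f A

/-- `R` occurs in an abelian variety over the field of `K`. -/
def Geo (D : Newforms Γ E) (K : Subgroup Γ) (R : Γ → G2 E) : Prop := ∃ B : D.AV K, D.Occ K R B

/-- `g` is virtually isomorphic to `f`: their representations are isomorphic over some number field. -/
def Virt (D : Newforms Γ E) (O : Opens Γ) (f g : D.Form) : Prop :=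
  VIso O (D.fld f) (D.rho f) (D.fld g) (D.rho g)

/-- The conjugate of `g` by `σ` is virtually isomorphic to `f`. -/
def VirtConj (D : Newforms Γ E) (O : Opens Γ) (σ : Γ) (g f : D.Form) : Prop :=
  VIso O (cj σ (D.fld g)) (cjRep σ (D.rho g)) (D.fld f) (D.rho f)

end Newforms

/-- The known facts. -/
structure Known {Γ E : Type} [Group Γ] [Field E] (O : Opens Γ) (D : Newforms Γ E) : Prop where
  fld_open : ∀ f, D.fld f ∈ O.Op
  fld_real : ∀ f, D.fld f ∈ D.TR
  isRep : ∀ f, IsRep (D.fld f) (D.rho f)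
  /-- Ribet, Momose, Nekovář: the representation of a newform without complex multiplication is
  irreducible on all open subgroups -/
  strong : ∀ f, ¬ D.CM f → SI O (D.fld f) (D.rho f)
  /-- extension of the base field -/
  base_change : ∀ K ∈ O.Op, ∀ H ∈ O.Op, K ≤ H → ∀ R, D.Geo H R → D.Geo K R
  /-- restriction of scalars: `V_ℓ` of the Weil restriction is the induced representation -/
  weil : ∀ K ∈ O.Op, ∀ H ∈ O.Op, K ≤ H → ∀ R, IsRep H R → D.Geo K R → D.Geo H R
  /-- isomorphic representations -/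
  iso : ∀ K ∈ O.Op, ∀ R R', (∃ P : G2 E, ∀ x ∈ K, R' x = P * R x * P⁻¹) → D.Geo K R → D.Geo K R'
  /-- conjugate varieties -/
  conj : ∀ K ∈ O.Op, ∀ R, ∀ σ : Γ, D.Geo K R → D.Geo (cj σ K) (cjRep σ R)
  /-- an abelian variety associated to `f` exists if and only if the representation of `f` occurs in an
  abelian variety over the field of `f` (Shimura, Faltings, Carayol) -/
  assoc : ∀ f, D.HasAV f ↔ D.Geo (D.fld f) (D.rho f)
  /-- complex multiplication (Shimura, Casselman) -/
  cm : ∀ f, D.CM f → D.HasAV f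
  /-- Shimura curves (Shimura, Hida, Carayol, Zhang) -/
  odd : ∀ f, Odd (D.fld f).index → D.HasAV f
  ds : ∀ f, D.DS f → D.HasAV f
  /-- Tate: projective representations lift -/
  tate : ∀ f, ¬ D.CM f → ∀ G ∈ O.Op, D.fld f ≤ G → ∀ P : Γ → G2 E,
    (∀ x ∈ G, ∀ y ∈ G, ∃ c : Eˣ, P (x * y) = sc c * (P x * P y)) →
    (∀ x ∈ D.fld f, ∃ c : Eˣ, P x = sc c * D.rho f x) →
    ∃ R, IsRep G R ∧ (∀ x ∈ G, ∃ c : Eˣ, R x = sc c * P x) ∧ VIso O G R (D.fld f) (D.rho f)
  /-- Serre's modularity conjecture and modularity lifting (Khare-Wintenberger, Kisin): a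
  representation of `Gal(ℚ̄/ℚ)` which is virtually isomorphic to the representation of `f` is
  virtually isomorphic to that of a newform over `ℚ` -/
  serre : ∀ f, ¬ D.CM f → ∀ R, IsRep ⊤ R → VIso O ⊤ R (D.fld f) (D.rho f) →
    ∃ g, D.fld g = ⊤ ∧ VIso O ⊤ R (D.fld g) (D.rho g)
  /-- solvable descent (Langlands) -/
  descent : ∀ f, ¬ D.CM f → ∀ G ∈ O.Op, SolvOver (D.fld f) G → ∀ R, IsRep G R →
    VIso O G R (D.fld f) (D.rho f) → ∃ g, D.fld g = G ∧ VIso O G R (D.fld g) (D.rho g)
  /-- solvable base change (Langlands), and existence of totally real solvable extensions with given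
  local behaviour: a newform without complex multiplication, with trivial character, which is
  square-integrable at no finite place, gets level `(1)` over a totally real solvable extension of its
  field, and then over all larger such extensions -/
  level_one : ∀ f, ¬ D.CM f → ¬ D.DS f → D.TrivChar f → ∃ K ∈ O.Op, K ∈ D.TR ∧ SolvOver K (D.fld f) ∧
    ∀ L ∈ O.Op, L ∈ D.TR → L ≤ K → SolvOver L (D.fld f) →
      ∃ g, D.fld g = L ∧ D.LevelOne g ∧ D.TrivChar g ∧ D.Virt O f g

section

variable {Γ E : Type} [Group Γ] [Field E] {O : Opens Γ} {D : Newforms Γ E}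

/-- The set `T` of totally real fields contains arbitrarily large solvable totally real extensions
of every totally real field. -/
def Cofinal (O : Opens Γ) (D : Newforms Γ E) (T : Set (Subgroup Γ)) : Prop :=
  ∀ H ∈ O.Op, H ∈ D.TR → ∀ K ∈ O.Op, K ∈ D.TR → SolvOver K H →
    ∃ L ∈ T, L ∈ O.Op ∧ L ∈ D.TR ∧ L ≤ K ∧ SolvOver L H

/-- All newforms `g`, over all totally real fields, of which some conjugate is virtually isomorphic to
`f`, have a field of even degree and are square-integrable at no finite place. -/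
def Remote (O : Opens Γ) (D : Newforms Γ E) (f : D.Form) : Prop :=
  ∀ g σ, D.VirtConj O σ g f → ¬ Odd (D.fld g).index ∧ ¬ D.DS g ∧ ¬ D.CM g

theorem Known.geo_of_viso (h : Known O D) {H K : Subgroup Γ} (hH : H ∈ O.Op) (hK : K ∈ O.Op)
    {R R' : Γ → G2 E} (hR' : IsRep K R') (hv : VIso O H R K R') (hg : D.Geo H R) : D.Geo K R' := by
  obtain ⟨L, hL, h1, h2, P, hP⟩ := hv
  exact h.weil L hL K hK h2 R' hR' (h.iso L hL R R' ⟨P, hP⟩ (h.base_change L hL H hH h1 R hg))

theorem Known.hasAV_of_virtConj (h : Known O D) {f g : D.Form} {σ : Γ} (hv : D.VirtConj O σ g f)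
    (hg : D.HasAV g) : D.HasAV f := by
  rw [h.assoc] at hg ⊢
  exact h.geo_of_viso (O.conj _ (h.fld_open g) σ) (h.fld_open f) (h.isRep f) hv
    (h.conj _ (h.fld_open g) _ σ hg)

theorem virtConj_symm {f g : D.Form} {σ : Γ} (hv : D.VirtConj O σ g f) : D.VirtConj O σ⁻¹ f g := by
  have h1 := (VIso.cj hv σ⁻¹)
  rw [cj_mul, cjRep_mul, inv_mul_cancel, cj_one, cjRep_one] at h1
  exact h1.symm

theorem virtConj_one {f g : D.Form} (hv : D.Virt O g f) : D.VirtConj O 1 g f := by
  unfold Newforms.VirtConj; rw [cj_one, cjRep_one]; exact hv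

theorem Known.hasAV_iff (h : Known O D) {f g : D.Form} {σ : Γ} (hv : D.VirtConj O σ g f) :
    D.HasAV f ↔ D.HasAV g :=
  ⟨h.hasAV_of_virtConj (virtConj_symm hv), h.hasAV_of_virtConj hv⟩

theorem Known.hasAV_iff_occurs (h : Known O D) (f : D.Form) :
    D.HasAV f ↔ ∃ K ∈ O.Op, K ≤ D.fld f ∧ ∃ χ, IsChar O K χ ∧ D.Geo K (tw χ (D.rho f)) := by
  constructor
  · intro hf
    refine ⟨D.fld f, h.fld_open f, le_rfl, fun _ => 1, ⟨fun _ _ _ _ => by simp,
      D.fld f, h.fld_open f, le_rfl, fun _ _ => rfl⟩, ?_⟩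
    refine h.iso _ (h.fld_open f) _ _ ⟨1, fun x _ => ?_⟩ ((h.assoc f).mp hf)
    simp [tw]
  · rintro ⟨K, hK, hKf, χ, hχ, hg⟩
    rw [h.assoc]
    have hv : VIso O K (D.rho f) K (tw χ (D.rho f)) :=
      VIso.of_twist hχ 1 (fun x _ => by simp)
    exact h.weil K hK _ (h.fld_open f) hKf _ (h.isRep f)
      (h.geo_of_viso hK hK ((h.isRep f).mono hKf) hv.symm hg)

/-- Invariance over the field of `G`, and a newform over the field of `G`. -/
theorem Known.exists_form (h : Known O D) {f : D.Form} (hf : ¬ D.CM f) {G : Subgroup Γ} (hG : G ∈ O.Op)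
    (hle : D.fld f ≤ G) (hinv : ∀ σ ∈ G, σ ∈ InvSet O (D.fld f) (D.rho f))
    (hc : G = ⊤ ∨ SolvOver (D.fld f) G) : ∃ g, D.fld g = G ∧ D.Virt O g f := by
  obtain ⟨P, h1, h2⟩ := exists_extension (h.isRep f) (h.strong f hf) hinv hle
  obtain ⟨R, hR, -, hv⟩ := h.tate f hf G hG hle P h1 h2
  rcases hc with hc | hc
  · subst hc
    obtain ⟨g, hg, hgv⟩ := h.serre f hf R hR hv
    exact ⟨g, hg, (hgv.symm).trans hv⟩
  · obtain ⟨g, hg, hgv⟩ := h.descent f hf G hG hc R hR hv
    exact ⟨g, hg, (hgv.symm).trans hv⟩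

theorem invSet_congr {H H' : Subgroup Γ} {R R' : Γ → G2 E} (hv : VIso O H R H' R') {σ : Γ}
    (hs : σ ∈ InvSet O H R) : σ ∈ InvSet O H' R' :=
  ((VIso.cj hv σ).symm.trans (mem_invSet.mp hs)).trans hv

end

end Run7.h615.ES
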