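import Pool.Agent.Run7.h615.ES.Forms

/-!
# The Eichler-Shimura conjecture: Galois invariant newforms and the reduction
-/

set_option autoImplicit false

namespace Run7.h615.ES

variable {Γ E : Type} [Group Γ] [Field E] {O : Opens Γ} {D : Newforms Γ E}

/-- Newforms virtually isomorphic to all their conjugates. -/
theorem Known.hasAV_of_inv (h : Known O D) (f : D.Form)
    (hinv : ∀ σ, σ ∈ InvSet O (D.fld f) (D.rho f)) : D.HasAV f := by
  by_cases hf : D.CM f
  · exact h.cm f hf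
  obtain ⟨g, hg, hv⟩ := h.exists_form hf O.top le_top (fun σ _ => hinv σ) (Or.inl rfl)
  refine h.hasAV_of_virtConj (virtConj_one hv) (h.odd g ?_)
  rw [hg, Subgroup.index_top]
  exact odd_one

/-- Newforms invariant over a field of odd degree. -/
theorem Known.hasAV_of_inv_odd (h : Known O D) (f : D.Form) (G : Subgroup Γ) (hG : G ∈ O.Op)
    (hodd : Odd G.index) (hinv : ∀ σ ∈ G, σ ∈ InvSet O (D.fld f) (D.rho f)) (g : D.Form)
    (hv : D.Virt O f g) (hs : SolvOver (D.fld g) G) : D.HasAV f := by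
  refine h.hasAV_of_virtConj (virtConj_one (VIso.symm hv)) ?_
  by_cases hg : D.CM g
  · exact h.cm g hg
  obtain ⟨k, hk, hkv⟩ := h.exists_form hg hG hs.1 (fun σ hσ => invSet_congr hv (hinv σ hσ)) (Or.inr hs)
  refine h.hasAV_of_virtConj (virtConj_one hkv) (h.odd k ?_)
  rw [hk]; exact hodd

/-- The reduction. -/
theorem Known.reduction (h : Known O D) {T : Set (Subgroup Γ)} (hT : Cofinal O D T)
    (hyp : ∀ g, D.TrivChar g → D.LevelOne g → D.fld g ∈ T → Remote O D g → D.HasAV g)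
    (f : D.Form) (hf : D.TrivChar f) : D.HasAV f := by
  by_cases hcm : D.CM f
  · exact h.cm f hcm
  by_cases hds : D.DS f
  · exact h.ds f hds
  obtain ⟨K, hK, hKr, hKs, hall⟩ := h.level_one f hcm hds hf
  obtain ⟨L, hLT, hL, hLr, hLK, hLs⟩ := hT _ (h.fld_open f) (h.fld_real f) K hK hKr hKs
  obtain ⟨g, hgL, hg1, hgt, hgv⟩ := hall L hL hLr hLK hLs
  refine h.hasAV_of_virtConj (virtConj_one (VIso.symm hgv)) ?_
  by_cases hr : Remote O D g
  · exact hyp g hgt hg1 (hgL ▸ hLT) hr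
  · simp only [Remote, not_forall] at hr
    obtain ⟨k, σ, hk, hk'⟩ := hr
    refine h.hasAV_of_virtConj hk ?_
    by_cases h1 : Odd (D.fld k).index
    · exact h.odd k h1
    by_cases h2 : D.DS k
    · exact h.ds k h2
    by_cases h3 : D.CM k
    · exact h.cm k h3
    exact absurd ⟨h1, h2, h3⟩ hk'

/-- All parts together. -/
theorem main (h : Known O D) (Cond : D.Form → Prop) (hCond : ∀ f, D.LevelOne f → Cond f) :
    (∀ f, D.HasAV f ↔ ∃ K ∈ O.Op, K ≤ D.fld f ∧ ∃ χ, IsChar O K χ ∧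
      ∃ B : D.AV K, D.Occ K (tw χ (D.rho f)) B) ∧
    (∀ f g σ, D.VirtConj O σ g f → (D.HasAV f ↔ D.HasAV g)) ∧
    (∀ f, (∀ σ, D.VirtConj O σ f f) → D.HasAV f) ∧
    (∀ f, ∀ G ∈ O.Op, Odd G.index → (∀ σ ∈ G, D.VirtConj O σ f f) →
      (∃ g, D.Virt O f g ∧ SolvOver (D.fld g) G) → D.HasAV f) ∧
    (∀ T, Cofinal O D T →
      ((∀ f, D.TrivChar f → Even (D.fld f).index → Cond f → D.HasAV f) ↔
        ∀ f, D.TrivChar f → D.LevelOne f → D.fld f ∈ T → Remote O D f → D.HasAV f)) ∧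
    (∀ T, Cofinal O D T → ∀ S : Set D.Form,
      (∀ f, D.TrivChar f → D.LevelOne f → D.fld f ∈ T → Remote O D f →
        ∃ s ∈ S, ∃ σ, D.VirtConj O σ s f) →
      (∀ s ∈ S, D.HasAV s) → ∀ f, D.TrivChar f → D.HasAV f) := by
  refine ⟨fun f => h.hasAV_iff_occurs f, fun f g σ hv => h.hasAV_iff hv, fun f hf => h.hasAV_of_inv f hf,
    fun f G hG hodd hinv ⟨g, hv, hs⟩ => h.hasAV_of_inv_odd f G hG hodd hinv g hv hs, ?_, ?_⟩
  · intro T hT
    constructor
    · intro hall f hf h1 _ hr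
      refine hall f hf ?_ (hCond f h1)
      refine Nat.not_odd_iff_even.mp ?_
      exact (hr f 1 (virtConj_one (VIso.refl (h.fld_open f)))).1
    · intro hyp f hf _ _
      exact h.reduction hT hyp f hf
  · intro T hT S hS hyp f hf
    refine h.reduction hT (fun g h1 h2 h3 h4 => ?_) f hf
    obtain ⟨s, hs, σ, hv⟩ := hS g h1 h2 h3 h4
    exact h.hasAV_of_virtConj hv (hyp s hs)

end Run7.h615.ES
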