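import Pool.Agent.Run7.h615.ES.Forms

/-!
# Modularity of abelian varieties of `GL_2`-type over totally real fields
-/

set_option autoImplicit false

namespace Run7.h615.ES

/-- Abelian varieties of `GL_2`-type over totally real fields, and Hilbert newforms of parallel weight 2.
Here `Γ = Gal(ℚ̄/ℚ)`, `E = ℚ̄_ℓ`, and number fields are given by open subgroups of `Γ`. -/
structure GL2Type (Γ E : Type) [Group Γ] [Field E] where
  /-- the totally real fields -/
  TR : Set (Subgroup Γ)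
  /-- the abelian varieties `A` over the field of `H`, of `GL_2(M)`-type for some number field `M`
  with an embedding `M → E` -/
  AV : Subgroup Γ → Type
  /-- the representation of `H` on `V_ℓ(A) ⊗ E`, the tensor product over `M ⊗ ℚ_ℓ` -/
  rep : {H : Subgroup Γ} → AV H → Γ → G2 E
  /-- extension of the base field -/
  ext : {H K : Subgroup Γ} → K ≤ H → AV H → AV K
  /-- `A` has a factor with complex multiplication over `ℚ̄` -/
  CM : {H : Subgroup Γ} → AV H → Prop
  /-- `A` has semistable reduction everywhere -/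
  Semistable : {H : Subgroup Γ} → AV H → Prop
  /-- `A` is associated to a Hilbert newform over the field of `H` (equality of the Euler factors at
  all primes of this field) -/
  Modular : {H : Subgroup Γ} → AV H → Prop
  /-- the Hilbert newforms of parallel weight 2, over all totally real fields -/
  Form : Type
  fld : Form → Subgroup Γ
  rho : Form → Γ → G2 E

/-- The known facts. -/
structure KnownModularity {Γ E : Type} [Group Γ] [Field E] (O : Opens Γ) (D : GL2Type Γ E) : Prop where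
  isRep : ∀ H ∈ O.Op, ∀ A : D.AV H, IsRep H (D.rep A)
  isRep_form : ∀ f, IsRep (D.fld f) (D.rho f)
  fld_open : ∀ f, D.fld f ∈ O.Op
  /-- Faltings: without complex multiplication the representation is irreducible on all open
  subgroups -/
  strong : ∀ H ∈ O.Op, H ∈ D.TR → ∀ A : D.AV H, ¬ D.CM A → SI O H (D.rep A)
  ext_rep : ∀ H ∈ O.Op, ∀ K ∈ O.Op, ∀ (h : K ≤ H) (A : D.AV H),
    ∃ P : G2 E, ∀ x ∈ K, D.rep (D.ext h A) x = P * D.rep A x * P⁻¹
  /-- `A` is associated to `f` if and only if the representations are isomorphic, for suitable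
  embeddings of the coefficients (Faltings, Carayol, Chebotarev) -/
  modular_iff : ∀ H ∈ O.Op, H ∈ D.TR → ∀ A : D.AV H, D.Modular A ↔
    ∃ f, D.fld f = H ∧ ∃ P : G2 E, ∀ x ∈ H, D.rep A x = P * D.rho f x * P⁻¹
  /-- complex multiplication (Shimura, Weil) -/
  cm : ∀ H ∈ O.Op, H ∈ D.TR → ∀ A : D.AV H, D.CM A → D.Modular A
  /-- twists of newforms -/
  twist : ∀ f χ, IsChar O (D.fld f) χ →
    ∃ g, D.fld g = D.fld f ∧ ∃ P : G2 E, ∀ x ∈ D.fld f, D.rho g x = P * tw χ (D.rho f) x * P⁻¹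
  /-- Tate: projective representations lift -/
  tate : ∀ H ∈ O.Op, H ∈ D.TR → ∀ A : D.AV H, ¬ D.CM A → ∀ P : Γ → G2 E,
    (∀ x y, ∃ c : Eˣ, P (x * y) = sc c * (P x * P y)) →
    (∀ x ∈ H, ∃ c : Eˣ, P x = sc c * D.rep A x) →
    ∃ R, IsRep ⊤ R ∧ (∀ x, ∃ c : Eˣ, R x = sc c * P x) ∧ VIso O ⊤ R H (D.rep A)
  /-- Serre's modularity conjecture and modularity lifting (Khare-Wintenberger, Kisin) -/
  serre : ∀ H ∈ O.Op, H ∈ D.TR → ∀ A : D.AV H, ¬ D.CM A → ∀ R, IsRep ⊤ R →
    VIso O ⊤ R H (D.rep A) → ∃ g, D.fld g = ⊤ ∧ VIso O ⊤ R (D.fld g) (D.rho g)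
  /-- base change of newforms from `ℚ` to arbitrary totally real fields (Dieulefait) -/
  base_change : ∀ g, D.fld g = ⊤ → SI O ⊤ (D.rho g) → ∀ H ∈ O.Op, H ∈ D.TR →
    ∃ f, D.fld f = H ∧ VIso O ⊤ (D.rho g) H (D.rho f)
  /-- solvable descent (Langlands) -/
  descent : ∀ H ∈ O.Op, H ∈ D.TR → ∀ K ∈ O.Op, K ∈ D.TR → SolvOver K H → ∀ (h : K ≤ H) (A : D.AV H),
    ¬ D.CM A → D.Modular (D.ext h A) → D.Modular A
  /-- semistable reduction over a totally real solvable extension, and over all larger ones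
  (Grothendieck, Grunwald-Wang) -/
  semistable : ∀ H ∈ O.Op, H ∈ D.TR → ∀ A : D.AV H, ∃ K ∈ O.Op, K ∈ D.TR ∧ SolvOver K H ∧
    ∀ L ∈ O.Op, L ∈ D.TR → L ≤ K → ∀ h : L ≤ H, D.Semistable (D.ext h A)

section

variable {Γ E : Type} [Group Γ] [Field E] {O : Opens Γ} {D : GL2Type Γ E}

/-- The conjugate of `A` by `σ` is virtually isomorphic to `A`. -/
def VirtInv (O : Opens Γ) (D : GL2Type Γ E) {H : Subgroup Γ} (A : D.AV H) (σ : Γ) : Prop :=
  VIso O (cj σ H) (cjRep σ (D.rep A)) H (D.rep A)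

/-- The set `T` of totally real fields contains arbitrarily large solvable totally real extensions
of every totally real field. -/
def CofinalT (O : Opens Γ) (TR T : Set (Subgroup Γ)) : Prop :=
  ∀ H ∈ O.Op, H ∈ TR → ∀ K ∈ O.Op, K ∈ TR → SolvOver K H →
    ∃ L ∈ T, L ∈ O.Op ∧ L ∈ TR ∧ L ≤ K ∧ SolvOver L H

theorem SI.of_viso {H H' : Subgroup Γ} {R R' : Γ → G2 E} (hS : SI O H R) (hv : VIso O H R H' R') :
    SI O H' R' := by
  intro K hK hKH M hM
  obtain ⟨L, hL, h1, h2, P, hP⟩ := hv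
  obtain ⟨c, hc⟩ := hS (K ⊓ L) (O.inf _ hK _ hL) (inf_le_right.trans h1) (P⁻¹ * M * P) (by
    intro x hx
    have e1 := hM x (Subgroup.mem_inf.mp hx).1
    have e2 := hP x (Subgroup.mem_inf.mp hx).2
    rw [e2] at e1
    calc P⁻¹ * M * P * R x = P⁻¹ * (M * (P * R x * P⁻¹)) * P := by group
      _ = P⁻¹ * (P * R x * P⁻¹ * M) * P := by rw [e1]
      _ = R x * (P⁻¹ * M * P) := by group)
  refine ⟨c, ?_⟩
  calc M = P * (P⁻¹ * M * P) * P⁻¹ := by group
    _ = P * sc c * P⁻¹ := by rw [hc]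
    _ = sc c * P * P⁻¹ := by rw [sc_mul_comm]
    _ = sc c := by group

/-- If a newform over the field of `A` is virtually isomorphic to `A` then `A` is modular. -/
theorem KnownModularity.modular_of_viso (h : KnownModularity O D) {H : Subgroup Γ} (hH : H ∈ O.Op)
    (hr : H ∈ D.TR) (A : D.AV H) (hA : ¬ D.CM A) {f : D.Form} (hf : D.fld f = H)
    (hv : VIso O H (D.rho f) H (D.rep A)) : D.Modular A := by
  have hRf : IsRep H (D.rho f) := hf ▸ h.isRep_form f
  have hS : SI O H (D.rho f) := (h.strong H hH hr A hA).of_viso hv.symm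
  obtain ⟨K, hK, hKH, -, P, hP⟩ := hv
  obtain ⟨χ, hχ, he⟩ := twist_of_eq hRf (h.isRep H hH A) hS hK hKH P hP
  obtain ⟨g, hg, Q, hQ⟩ := h.twist f χ (hf ▸ hχ)
  refine (h.modular_iff H hH hr A).mpr ⟨g, hg.trans hf, P * Q⁻¹, fun x hx => ?_⟩
  rw [he x hx, hQ x (hf ▸ hx)]; group

/-- Virtually invariant abelian varieties are modular. -/
theorem KnownModularity.modular_of_inv (h : KnownModularity O D) {H : Subgroup Γ} (hH : H ∈ O.Op)
    (hr : H ∈ D.TR) (A : D.AV H) (hinv : ∀ σ, VirtInv O D A σ) : D.Modular A := by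
  by_cases hA : D.CM A
  · exact h.cm H hH hr A hA
  obtain ⟨P, h1, h2⟩ := exists_extension (G := ⊤) (h.isRep H hH A) (h.strong H hH hr A hA)
    (fun σ _ => hinv σ) le_top
  obtain ⟨R, hR, -, hv⟩ := h.tate H hH hr A hA P (fun x y => h1 x trivial y trivial) h2
  obtain ⟨g, hg, hgv⟩ := h.serre H hH hr A hA R hR hv
  rw [hg] at hgv
  have hgA : VIso O ⊤ (D.rho g) H (D.rep A) := hgv.symm.trans hv
  obtain ⟨f, hf, hfv⟩ := h.base_change g hg ((h.strong H hH hr A hA).of_viso hgA.symm) H hH hr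
  exact h.modular_of_viso hH hr A hA hf (hfv.symm.trans hgA)

/-- If `A` is virtually isomorphic to a newform over `ℚ`, or to some conjugate of a modular abelian
variety which is virtually invariant, then `A` is virtually invariant; so nothing is lost in the previous
statement: an abelian variety virtually isomorphic to a newform over `ℚ` is virtually invariant. -/
theorem KnownModularity.inv_of_form (h : KnownModularity O D) {H : Subgroup Γ} (A : D.AV H) {g : D.Form}
    (hg : D.fld g = ⊤) (hv : VIso O ⊤ (D.rho g) H (D.rep A)) (σ : Γ) : VirtInv O D A σ := by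
  have h1 : σ ∈ InvSet O ⊤ (D.rho g) := by
    refine mem_invSet_of_mem O.top (hg ▸ h.isRep_form g) trivial
  exact mem_invSet.mp (invSet_congr hv h1)

theorem KnownModularity.inv_iff (h : KnownModularity O D) {H : Subgroup Γ} (hH : H ∈ O.Op)
    (hr : H ∈ D.TR) (A : D.AV H) (hA : ¬ D.CM A) : (∀ σ, VirtInv O D A σ) ↔
      ∃ g, D.fld g = ⊤ ∧ VIso O ⊤ (D.rho g) H (D.rep A) := by
  constructor
  · intro hinv
    obtain ⟨P, h1, h2⟩ := exists_extension (G := ⊤) (h.isRep H hH A) (h.strong H hH hr A hA)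
      (fun σ _ => hinv σ) le_top
    obtain ⟨R, hR, -, hv⟩ := h.tate H hH hr A hA P (fun x y => h1 x trivial y trivial) h2
    obtain ⟨g, hg, hgv⟩ := h.serre H hH hr A hA R hR hv
    rw [hg] at hgv
    exact ⟨g, hg, hgv.symm.trans hv⟩
  · rintro ⟨g, hg, hv⟩ σ
    exact h.inv_of_form A hg hv σ

/-- The reduction. -/
theorem KnownModularity.reduction (h : KnownModularity O D) {T : Set (Subgroup Γ)}
    (hT : CofinalT O D.TR T)
    (hyp : ∀ L ∈ O.Op, L ∈ D.TR → L ∈ T → ∀ B : D.AV L, D.Semistable B → ¬ D.CM B →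
      (¬ ∀ σ, VirtInv O D B σ) → D.Modular B)
    {H : Subgroup Γ} (hH : H ∈ O.Op) (hr : H ∈ D.TR) (A : D.AV H) : D.Modular A := by
  by_cases hA : D.CM A
  · exact h.cm H hH hr A hA
  obtain ⟨K, hK, hKr, hKs, hall⟩ := h.semistable H hH hr A
  obtain ⟨L, hLT, hL, hLr, hLK, hLs⟩ := hT H hH hr K hK hKr hKs
  refine h.descent H hH hr L hL hLr hLs hLs.1 A hA ?_
  by_cases hB : D.CM (D.ext hLs.1 A)
  · exact h.cm L hL hLr _ hB
  by_cases hi : ∀ σ, VirtInv O D (D.ext hLs.1 A) σ
  · exact h.modular_of_inv hL hLr _ hi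
  · exact hyp L hL hLr hLT _ (hall L hL hLr hLK hLs.1) hB hi

end

end Run7.h615.ES
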